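import Mathlib
import Pool.Agent.Lib.MP_938ce2_ag_h82.R20
import Pool.Agent.Lib.MP_938ce2_ag_h60.NumField

/-!
Tate classes of almost linear codimension on products of abelian varieties with complex
multiplication by arbitrary CM fields.
-/

set_option autoImplicit false

namespace Pool.Agent.Results.MP_938ce2_ag.AlmostLinearCodimension

open NumberField
open Pool.Agent.Lib.MP_938ce2_ag_h60 (CMType Emb conj)
open Pool.Agent.Lib.MP_938ce2_ag_h65 (GeneratedUpTo)

/-- `E i` are CM fields of degree at least `2h`, the sum of their degrees is `2g`, and `L` is a Galois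
CM field which contains them, for instance the Galois closure of their compositum. `Emb L E` is the
set of the `2g` embeddings of the `E i` in `L`. The `2 ^ g` CM types contain one embedding of each
pair of complex conjugate ones. -/
theorem result :
    ∀ (L : Type) [Field L] [NumberField L] [IsGalois ℚ L] [IsCMField L] (ι : Type) [Fintype ι]
      (E : ι → Type) [∀ i, Field (E i)] [∀ i, NumberField (E i)] [∀ i, IsCMField (E i)]
      [∀ i, Nonempty (E i →ₐ[ℚ] L)] (g h J : ℕ),
      ∑ i, Module.finrank ℚ (E i) = 2 * g → (∀ i, 2 * h ≤ Module.finrank ℚ (E i)) →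
      (J : ℝ) * Real.log (2 * g) ^ 4 ≤ h / 10 ^ 11 →
      ({Φ : Finset (Emb L E) | CMType (conj L) Φ ∧ ¬ GeneratedUpTo (L ≃ₐ[ℚ] L) J Φ}.ncard : ℝ)
        ≤ Real.exp (-((h : ℝ) / (10 ^ 11 * J * Real.log (2 * g)))) * 2 ^ g := by
  intro L _ _ _ _ ι _ E _ _ _ _ g h J hg hh hc
  classical
  refine Pool.Agent.Lib.MP_938ce2_ag_h82.theorem1
    (fun γ => Pool.Agent.Lib.MP_938ce2_ag_h60.conj_comm γ)
    Pool.Agent.Lib.MP_938ce2_ag_h60.conj_mul_self
    (fun x => Pool.Agent.Lib.MP_938ce2_ag_h60.conj_smul_ne' x) ?_ ?_ hc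
  · rw [Pool.Agent.Lib.MP_938ce2_ag_h60.card_emb_sigma, hg]
  · intro x
    rw [Pool.Agent.Lib.MP_938ce2_ag_h60.ncard_orbit_emb]
    exact hh x.1

end Pool.Agent.Results.MP_938ce2_ag.AlmostLinearCodimension
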