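import Pool.Agent.Lib.CMN.FinThm

/-!
Balanced families of CM types and compact quotients of the complex `n`-ball.

`F` is a totally real number field other than the rationals, `v₁` a real place of `F`, `D` a totally
positive element of the ring of integers, `E = F(√-D)`. A CM type of `E` is a sign vector. The CM
types `Φ i` are `true` at `v₁`, the CM types `Ψ i` are `false` there, and at every place exactly `n`
of these `2n` CM types are `true`. Then there are a compact quotient of the complex `n`-ball by an
arithmetic subgroup of `SU(h)`, and `2n` closed holomorphic invariant theta one-forms on it with sign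
vectors `Φ i` and `bar (Ψ i)`, such that the integral of
`(⋀_i v_{a i}(φ i)) ∧ conj (⋀_i v_{b i}(ψ i))` is not zero. See `Pool.Agent.Lib.CMN.Defs` for the
definitions.
-/

set_option autoImplicit false

namespace Pool.Agent.Lib.MP_938ce2_parked.CMAbelianVarieties

open Pool.Agent.CMN

/-- `Quot` holds for every such family of `2n` CM types of `E = F(√-D)`. -/
theorem result (F : Type) [Field F] [NumberField F] [NumberField.IsTotallyReal F]
    (v₁ : F →+* ℝ) (D : F) (n : ℕ) (Φ Ψ : Fin n → CMType F) (hD : IsIntegral ℤ D)
    (hpos : ∀ v : F →+* ℝ, 0 < v D) (hF : ∃ v : F →+* ℝ, v ≠ v₁) (hn : 0 < n)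
    (hΦ : ∀ i, Φ i v₁ = true) (hΨ : ∀ i, Ψ i v₁ = false)
    (hbal : ∀ v : F →+* ℝ, (Finset.univ.filter fun i => Φ i v = true).card +
      (Finset.univ.filter fun i => Ψ i v = true).card = n) : Quot v₁ D Φ Ψ :=
  quot F v₁ D n Φ Ψ hD hpos hF hn hΦ hΨ hbal

end Pool.Agent.Lib.MP_938ce2_parked.CMAbelianVarieties
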