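import Mathlib
import Pool.Agent.Lib.MP_938ce2_ag_sc.Cover2
import Pool.Agent.Lib.MP_938ce2_ag_h6.Frobenius

/-!
# Tate classes on powers of general cyclic covers of the line

Let `C : y ^ m = ∏ (x - x_i) ^ b_i` (`i < n`, `∑ b_i = 0` modulo `m`) be the cyclic cover of the
projective line branched at `n ≥ 8` general points.  Its `H^1` is the direct sum of the eigenspaces
`M_a`, `0 ≠ a ∈ ℤ/m`, and the monodromy is as big as it can be, so that the Tate classes of the
powers of `C` are generated by divisor classes and by products of lines `det M_a`, over the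
elements `a` of a multiset `T`.  As `Sym^(n-2)(ℙ^1 - {x_i})` is the variety `∑ u_i = 1` in a torus,
`det M_a` is the line `V(a b_i)` in the cohomology of the Fermat variety of degree `m`; so the
product over `T` is `V(weil b T)`, and it consists of Tate classes iff `IsTate (weil b T)` (Weil).
`IsAlg` collects characters whose lines are algebraic by published constructions.  The pull-back of
`V(s)` to the Fermat variety of degree `k m` is `V(lift s)`.
-/

set_option autoImplicit false

open Finset

namespace Pool.Agent.Lib.MP_938ce2_parked.CyclicCovers1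

/-- The Tate condition, in terms of Frobenius eigenvalues: some power of
`∏ g(χ ^ a, ψ) / p ^ (l / 2)`, the product over the `l` elements `a` of `s`, is one, for all `p`,
`χ`, `ψ`. -/
def IsTate {m : ℕ} (s : Multiset (ZMod m)) : Prop :=
  (0 : ZMod m) ∉ s ∧ s.sum = 0 ∧
    ∀ (p : ℕ) [Fact p.Prime] (χ : MulChar (ZMod p) ℂ) (ψ : AddChar (ZMod p) ℂ),
      orderOf χ = m → ψ ≠ 1 → ∃ k, 0 < k ∧
        (s.map fun a => gaussSum (χ ^ a.val) ψ).prod ^ (2 * k) = (p : ℂ) ^ (s.card * k)

/-- Characters of algebraic cycles: `low`, cycles on Fermat surfaces (and curves, points); `aoki`,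
the cycles of Aoki attached to an odd prime `p` dividing `m`; `join` and `cut`, the inductive
structure of Shioda and Katsura. -/
inductive IsAlg {m : ℕ} [NeZero m] : Multiset (ZMod m) → Prop
  | low (s : Multiset (ZMod m)) : IsTate s → s.card ≤ 4 → IsAlg s
  | aoki (p : ℕ) (a : ZMod m) : p.Prime → p ≠ 2 → p ∣ m → (p : ZMod m) * a ≠ 0 →
      IsAlg ((univ.filter fun x : ZMod m => (p : ZMod m) * x = (p : ZMod m) * a).val
        + {-((p : ZMod m) * a)})
  | join (s t : Multiset (ZMod m)) : IsAlg s → IsAlg t → IsAlg (s + t)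
  | cut (s : Multiset (ZMod m)) (b : ZMod m) : b ≠ 0 → IsAlg (s + {b, -b}) → IsAlg s

/-- The character of degree `M` obtained from one of degree `m`, for `m ∣ M`. -/
def lift (M : ℕ) {m : ℕ} (s : Multiset (ZMod m)) : Multiset (ZMod M) :=
  s.map fun a => ((M / m * a.val : ℕ) : ZMod M)

/-- The products `a * b i`, for all `a` in `T` and all `i`, without those which are zero: the
character of the product over `T` of the determinants of the eigenspaces `M_a`. -/
def weil {m n : ℕ} (b : Fin n → ZMod m) (T : Multiset (ZMod m)) : Multiset (ZMod m) :=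
  (T.bind fun a => univ.val.map fun i => a * b i).filter (· ≠ 0)

open Pool.Agent.Lib

lemma isTate_iff {m : ℕ} [NeZero m] (s : Multiset (ZMod m)) :
    IsTate s ↔ MP_938ce2_ag_h6.IsTate s :=
  MP_938ce2_ag_h6.Frob.frobTate_iff s

lemma toAlg {m : ℕ} [NeZero m] {s : Multiset (ZMod m)} (h : MP_938ce2_ag_h6.IsAlg s) :
    IsAlg s := by
  induction h with
  | low s h1 h2 => exact IsAlg.low s ((isTate_iff s).mpr h1) h2
  | aoki p a h1 h2 h3 h4 => exact IsAlg.aoki p a h1 h2 h3 h4
  | join s t _ _ h1 h2 => exact IsAlg.join s t h1 h2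
  | cut s b h1 _ h2 => exact IsAlg.cut s b h1 h2

lemma lift_eq {m M : ℕ} [NeZero m] (h : m ∣ M) (s : Multiset (ZMod m)) :
    lift M s = s.map (MP_938ce2_ag_h99.jj h) := by
  unfold lift
  apply Multiset.map_congr rfl
  intro a _
  rw [← MP_938ce2_ag_h99.jj_natCast h, ZMod.natCast_zmod_val]

/-- All Tate characters attached to general cyclic covers of the line of degree `m`, with an even
number `n` of branch points and exponents `b`, become algebraic in all degrees divisible by some
number `N`, if
* the cover is totally ramified and no odd Dirichlet character `χ` modulo `m`, of order a power of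
  two, has `∑ χ (b i) = 0`; or
* `n - 1` is a prime power and all exponents but one are one: the curves `y ^ m = f(x)`, where the
  degree of `f` is a power of an odd prime and `m` is arbitrary. -/
theorem result (m n : ℕ) [NeZero m] (b : Fin n → ZMod m) (hsum : ∑ i, b i = 0) (hn : Even n)
    (h : (∀ i, IsUnit (b i)) ∧ (∀ χ : DirichletCharacter ℂ m, χ.Odd → (∃ k, χ ^ 2 ^ k = 1) →
        ∑ i, χ (b i) ≠ 0) ∨ IsPrimePow (n - 1) ∧ ∃ j, ∀ i, i ≠ j → b i = 1) :
    ∃ N ≠ 0, m ∣ N ∧ ∀ (M : ℕ) [NeZero M], N ∣ M → ∀ T : Multiset (ZMod m),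
      IsTate (weil b T) → IsAlg (lift M (weil b T)) := by
  have hm0 : m ≠ 0 := NeZero.ne m
  rcases h with ⟨h1, h2⟩ | ⟨h1, j, h2⟩
  · obtain ⟨N, hN, hall⟩ := MP_938ce2_ag_sc.weil_units b h1 hsum hn h2
    refine ⟨m * N, Nat.mul_ne_zero hm0 hN.ne', Dvd.intro _ rfl, ?_⟩
    intro M _ hM T hT
    have hf : m ∣ M := (Dvd.intro _ rfl).trans hM
    have hT' := (isTate_iff _).mp hT
    rw [lift_eq hf]
    apply toAlg
    rw [MP_938ce2_ag_h6.isAlg_iff_mem (hT'.lift hf)]
    apply MP_938ce2_ag_h6.relSub_le
    exact hall M hf ((Dvd.intro_left _ rfl).trans hM) T (MP_938ce2_ag_h6.isTate_iff.mp hT').2.2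
  · obtain ⟨p, k, hp, hk, hpk⟩ := h1
    have hp' : p.Prime := hp.nat_prime
    have hn1 : n = p ^ k + 1 := by
      have : 0 < p ^ k := pow_pos hp'.pos k
      omega
    refine ⟨m * p, Nat.mul_ne_zero hm0 hp'.ne_zero, Dvd.intro _ rfl, ?_⟩
    intro M _ hM T hT
    have hf : m ∣ M := (Dvd.intro _ rfl).trans hM
    have hT' := (isTate_iff _).mp hT
    rw [lift_eq hf]
    apply toAlg
    rw [MP_938ce2_ag_h6.isAlg_iff_mem (hT'.lift hf)]
    apply MP_938ce2_ag_h6.relSub_le
    exact MP_938ce2_ag_sc.weil_pow b j h2 hsum hp' hn1 hn hf ((Dvd.intro_left _ rfl).trans hM) T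
      (MP_938ce2_ag_h6.isTate_iff.mp hT').2.2

end Pool.Agent.Lib.MP_938ce2_parked.CyclicCovers1
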