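import Mathlib
import Pool.Agent.Lib.MP_938ce2.AllM

/-!
# Cyclic covers in all dimensions, abelian covers of the plane and of four-space

(A) Let `f` be a polynomial in the monomials `x^b` with `∑ b_i / e_i ≤ 1`, as general as
`x_1^{e_1} + ⋯ + x_n^{e_n} + 1`, and `X` the variety `z^m = f(x_1, …, x_n)`. The eigenspace of `z ↦ ζ z` with
eigenvalue `ζ^k`, `0 < k < m`, in the middle cohomology has a basis of forms `x^(a-1) z^(k-1) dx`,
`1 ≤ a_i ≤ e_i - 1`, and the Hodge type of this form is `(n - q, q)` if `q < ∑ a_i / e_i + k / m < q + 1` (if the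
sum is an integer the form does not extend to `X`).

(B) Let `S` be an abelian cover of the projective plane, branched in general curves of degrees `d i`. A character
of the group is given by its exponents `0 ≤ α i < 1` with integral level `L = ∑ i, d i * α i`, and this piece of
`H^{2,0}(S)` is `H^0(ℙ², O(L - 3))`. For an abelian cover `X` of four-space, branched in hypersurfaces of degrees
`d i` with normal crossings, the piece of `H^{4,0}(X)` is `H^0(ℙ⁴, O(L - 5))`, and if this vanishes the piece of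
`H^{3,1}(X)` is the cokernel of `H^0(ℙ⁴, T(L - 5)) → ⨁ H^0(D i, O(L + d i - 5))`, the sum over the `i` with
`α i ≠ 0`.

(C) Let `f` be a Laurent polynomial in two variables whose support is the finite set `A`, with `(0, 0) ∈ A`, and
nondegenerate for its Newton polygon `P`. The piece `k`, `0 < k < m`, of `H^{2,0}` of the surface `z^m = f(x, y)` has
the basis `x^i y^j z^(-k) dx/x dy/y`, `(i, j)` in the interior of `(k / m) P`. See `Pool.Agent.Lib.MP_938ce2.AllM`.
-/

set_option autoImplicit false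

namespace Pool.Agent.Results.MP_938ce2_ag.CyclicCovers

/-! ## Definitions, part A -/

section

variable {n : ℕ}

/-- The weight of the exponent `a`. -/
def val (e a : Fin n → ℕ) : ℚ := ∑ i, (a i : ℚ) / e i

/-- The exponents `a` with `1 ≤ a_i ≤ e_i - 1` and `q < ∑ a_i / e_i + x < q + 1`. -/
def mons (e : Fin n → ℕ) (x : ℚ) (q : ℕ) : Finset (Fin n → ℕ) :=
  (Fintype.piFinset fun i => Finset.Ico 1 (e i)).filter fun a => (q : ℚ) < val e a + x ∧ val e a + x < q + 1

/-- The Hodge number `h^(n-q,q)` of the piece `k`. -/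
def hodge (e : Fin n → ℕ) (m k q : ℕ) : ℕ := (mons e ((k : ℚ) / m) q).card

/-- The piece `k` has at most two types, and these are neighbours. -/
def TwoTypes (e : Fin n → ℕ) (m k : ℕ) : Prop :=
  ∀ p q, hodge e m k p ≠ 0 → hodge e m k q ≠ 0 → q ≤ p + 1

/-- The piece `k` is of K3 type: types `q, q+1, q+2`, the outer ones with multiplicity one. -/
def KThree (e : Fin n → ℕ) (m k : ℕ) : Prop :=
  (∀ p q, hodge e m k p ≠ 0 → hodge e m k q ≠ 0 → q ≤ p + 2) ∧
    ∀ q, hodge e m k q ≠ 0 → hodge e m k (q + 2) ≠ 0 → hodge e m k q = 1 ∧ hodge e m k (q + 2) = 1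

/-- Every piece has at most two types; for even `n` the piece of order two may also be of K3 type. -/
def IsAbelianType (e : Fin n → ℕ) (m : ℕ) : Prop :=
  ∀ k l, 0 < k → 0 < l → k + l = m → TwoTypes e m k ∨ (k = l ∧ Even n ∧ KThree e m k)

/-- The sum of the weights. -/
def wt (e : Fin n → ℕ) : ℚ := ∑ i, (1 : ℚ) / e i

end

/-! ## Definitions, part B -/

section

variable {ι : Type} [Fintype ι]

/-- The degree of the character with exponents `α`. -/
def level (d : ι → ℕ) (α : ι → ℚ) : ℚ := ∑ i, (d i : ℚ) * α i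

/-- The exponents of the conjugate character. -/
def bar (α : ι → ℚ) : ι → ℚ := fun i => if α i = 0 then 0 else 1 - α i

/-- `α` is the family of exponents of a character. -/
def IsChar (d : ι → ℕ) (α : ι → ℚ) : Prop :=
  (∀ i, 0 ≤ α i ∧ α i < 1) ∧ ∃ n : ℕ, level d α = n

/-- The dimension of `H^0(ℙ², O(level d α - 3))`: the number of monomials `x ^ i y ^ j` with
`i + j + 3 ≤ level d α`. -/
def h20Ab (d : ι → ℕ) (α : ι → ℚ) : ℕ :=
  ((Finset.range (∑ i, d i) ×ˢ Finset.range (∑ i, d i)).filter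
    fun a => (a.1 : ℚ) + a.2 + 3 ≤ level d α).card

/-- `H^{2,0}` is chiral for every abelian cover which is branched in curves of degrees `d i`. -/
def IsChiralAb (d : ι → ℕ) : Prop :=
  ∀ α : ι → ℚ, IsChar d α →
    (bar α = α → h20Ab d α ≤ 1) ∧ (bar α ≠ α → h20Ab d α = 0 ∨ h20Ab d (bar α) = 0)

/-- The dimension of the piece of `H^{4,0}`. -/
def h40 (d : ι → ℕ) (α : ι → ℚ) : ℕ := (⌊level d α⌋₊ - 1).choose 4

/-- The dimension of the piece of `H^{3,1}`, if `h40 = 0`. -/
def h31 (d : ι → ℕ) (α : ι → ℚ) : ℕ :=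
  (∑ i, if α i = 0 then 0 else (⌊level d α⌋₊ + d i - 1).choose 4) - 5 * ⌊level d α⌋₊.choose 4

/-- `H^{4,0} = 0` and `H^{3,1}` is chiral for every abelian cover of `ℙ⁴` which is branched in
hypersurfaces of degrees `d i` with normal crossings. -/
def IsChiral4 (d : ι → ℕ) : Prop :=
  ∀ α : ι → ℚ, IsChar d α → h40 d α = 0 ∧
    (bar α = α → h31 d α ≤ 1) ∧ (bar α ≠ α → h31 d α = 0 ∨ h31 d (bar α) = 0)

end

/-! ## Part A -/

section

variable {n : ℕ}

lemma mem_mons {e : Fin n → ℕ} {x : ℚ} {q : ℕ} {a : Fin n → ℕ} :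
    a ∈ mons e x q ↔ (∀ i, 1 ≤ a i ∧ a i < e i) ∧ (q : ℚ) < val e a + x ∧ val e a + x < q + 1 := by
  unfold mons
  rw [Finset.mem_filter, Fintype.mem_piFinset]
  simp only [Finset.mem_Ico]

lemma wt_le {e a : Fin n → ℕ} (ha : ∀ i, 1 ≤ a i) : wt e ≤ val e a := by
  unfold wt val
  refine Finset.sum_le_sum fun i _ => ?_
  have h1 : (1 : ℚ) ≤ a i := by exact_mod_cast ha i
  have h2 : (0 : ℚ) ≤ e i := Nat.cast_nonneg _
  gcongr

lemma val_compl {e a : Fin n → ℕ} (he : ∀ i, 2 ≤ e i) (ha : ∀ i, a i ≤ e i) :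
    val e (fun i => e i - a i) = n - val e a := by
  unfold val
  have h1 : ∀ i ∈ Finset.univ, (((e i - a i : ℕ) : ℚ) / e i) = 1 - (a i : ℚ) / e i := by
    intro i _
    have h2 : (e i : ℚ) ≠ 0 := by
      have := he i
      exact_mod_cast (by omega : e i ≠ 0)
    rw [Nat.cast_sub (ha i), sub_div, div_self h2]
  rw [Finset.sum_congr rfl h1, Finset.sum_sub_distrib]
  simp

lemma le_wt {e a : Fin n → ℕ} (he : ∀ i, 2 ≤ e i) (ha : ∀ i, a i < e i) : val e a ≤ n - wt e := by
  have h1 := val_compl (a := fun i => e i - a i) he fun i => Nat.sub_le _ _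
  have h2 : (fun i => e i - (e i - a i)) = a := by
    funext i
    have := ha i
    omega
  rw [h2] at h1
  have h3 := wt_le (e := e) (a := fun i => e i - a i) fun i => by
    have := ha i
    omega
  linarith

lemma val_one (e : Fin n → ℕ) : val e (fun _ => 1) = wt e := by
  unfold val wt
  simp

lemma val_two (e : Fin n → ℕ) (i : Fin n) :
    val e (fun j => if j = i then 2 else 1) = wt e + 1 / e i := by
  unfold val wt
  have h1 : ∀ j ∈ Finset.univ, (((if j = i then 2 else 1 : ℕ) : ℚ) / e j) =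
      1 / e j + (if j = i then (1 : ℚ) / e j else 0) := by
    intro j _
    split_ifs <;> push_cast <;> ring
  rw [Finset.sum_congr rfl h1, Finset.sum_add_distrib, Finset.sum_ite_eq' Finset.univ i]
  simp

lemma hodge_ne {e : Fin n → ℕ} {m k q : ℕ} {a : Fin n → ℕ} (h : a ∈ mons e ((k : ℚ) / m) q) :
    hodge e m k q ≠ 0 := by
  unfold hodge
  rw [Finset.card_ne_zero]
  exact ⟨a, h⟩

lemma exists_of_ne {e : Fin n → ℕ} {m k q : ℕ} (h : hodge e m k q ≠ 0) :
    ∃ a, a ∈ mons e ((k : ℚ) / m) q := by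
  unfold hodge at h
  rw [Finset.card_ne_zero] at h
  exact h

lemma inv_le {e : ℕ} (he : 3 ≤ e) : (1 : ℚ) / e ≤ 1 / 3 := by
  have : (3 : ℚ) ≤ e := by exact_mod_cast he
  gcongr

lemma inv_pos' {e : ℕ} (he : 2 ≤ e) : (0 : ℚ) < 1 / e := by
  have : (2 : ℚ) ≤ e := by exact_mod_cast he
  positivity

/-- The lowest type. -/
lemma low {e : Fin n → ℕ} (he : ∀ i, 2 ≤ e i) {i : Fin n} (hi : 3 ≤ e i) {m k p : ℕ}
    (h1 : (p : ℚ) ≤ wt e + (k : ℚ) / m) (h2 : wt e + (k : ℚ) / m < p + 1) : hodge e m k p ≠ 0 := by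
  rcases lt_or_eq_of_le h1 with h3 | h3
  · refine hodge_ne (a := fun _ => 1) (mem_mons.mpr ⟨fun j => ⟨le_refl _, ?_⟩, ?_, ?_⟩)
    · have := he j; omega
    · rw [val_one]; exact h3
    · rw [val_one]; exact h2
  · have h4 := inv_le hi
    have h5 := inv_pos' (he i)
    refine hodge_ne (a := fun j => if j = i then 2 else 1) (mem_mons.mpr ⟨fun j => ?_, ?_, ?_⟩)
    · have := he j
      split_ifs with h
      · subst h; omega
      · omega
    · rw [val_two]; linarith
    · rw [val_two]; linarith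

/-- The highest type. -/
lemma high {e : Fin n → ℕ} (he : ∀ i, 2 ≤ e i) {i : Fin n} (hi : 3 ≤ e i) {m k q : ℕ}
    (h1 : (q : ℚ) < n - wt e + (k : ℚ) / m) (h2 : n - wt e + (k : ℚ) / m ≤ q + 1) : hodge e m k q ≠ 0 := by
  rcases lt_or_eq_of_le h2 with h3 | h3
  · have h4 := val_compl (a := fun _ => 1) he fun j => by have := he j; omega
    rw [val_one] at h4
    refine hodge_ne (a := fun j => e j - 1) (mem_mons.mpr ⟨fun j => ?_, ?_, ?_⟩)
    · have := he j; omega
    · rw [h4]; exact h1
    · rw [h4]; exact h3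
  · have h4 := val_compl (a := fun j => if j = i then 2 else 1) he fun j => by
      have := he j
      split_ifs <;> omega
    rw [val_two] at h4
    have h5 := inv_le hi
    have h6 := inv_pos' (he i)
    refine hodge_ne (a := fun j => e j - if j = i then 2 else 1) (mem_mons.mpr ⟨fun j => ?_, ?_, ?_⟩)
    · have := he j
      split_ifs with h
      · subst h; omega
      · omega
    · rw [h4]; linarith
    · rw [h4]; linarith

/-- If the sum of the weights is below `n / 2`, some exponent is at least three. -/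
lemma exists_three {e : Fin n → ℕ} (he : ∀ i, 2 ≤ e i) (h : 2 * wt e < n) : ∃ i, 3 ≤ e i := by
  by_contra hcon
  push Not at hcon
  have h1 : wt e = n / 2 := by
    unfold wt
    have : ∀ i ∈ Finset.univ, (1 : ℚ) / e i = 1 / 2 := by
      intro i _
      have h2 := he i
      have h3 := hcon i
      have h4 : e i = 2 := by omega
      rw [h4]; norm_num
    rw [Finset.sum_congr rfl this]
    simp
    ring
  rw [h1] at h
  linarith

/-- Both extreme types. -/
lemma types {e : Fin n → ℕ} (he : ∀ i, 2 ≤ e i) (hW : 2 * wt e < n) (m k : ℕ) :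
    ∃ p q, hodge e m k p ≠ 0 ∧ hodge e m k q ≠ 0 ∧ (p : ℚ) ≤ wt e + (k : ℚ) / m ∧
      wt e + (k : ℚ) / m < p + 1 ∧ n - wt e + (k : ℚ) / m ≤ q + 1 := by
  obtain ⟨i, hi⟩ := exists_three he hW
  have hw0 : 0 ≤ wt e := Finset.sum_nonneg fun j _ => by positivity
  have hx : (0 : ℚ) ≤ (k : ℚ) / m := by positivity
  have h1 : (0 : ℚ) ≤ wt e + (k : ℚ) / m := by linarith
  have h2 : (0 : ℚ) < n - wt e + (k : ℚ) / m := by linarith
  obtain ⟨c, hc⟩ : ∃ c, c = ⌈(n : ℚ) - wt e + (k : ℚ) / m⌉₊ := ⟨_, rfl⟩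
  have hc1 : 0 < c := by rw [hc]; exact Nat.ceil_pos.mpr h2
  have hc2 : (n : ℚ) - wt e + (k : ℚ) / m ≤ c := by rw [hc]; exact Nat.le_ceil _
  have hc3 : (c : ℚ) < (n : ℚ) - wt e + (k : ℚ) / m + 1 := by rw [hc]; exact Nat.ceil_lt_add_one h2.le
  obtain ⟨q, rfl⟩ : ∃ q, c = q + 1 := ⟨c - 1, by omega⟩
  push_cast at hc2 hc3
  refine ⟨⌊wt e + (k : ℚ) / m⌋₊, q, ?_, ?_, Nat.floor_le h1, Nat.lt_floor_add_one _, hc2⟩
  · exact low he hi (Nat.floor_le h1) (Nat.lt_floor_add_one _)
  · exact high he hi (by linarith) hc2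

/-- A piece with two types. -/
lemma twoTypes_bound {e : Fin n → ℕ} (he : ∀ i, 2 ≤ e i) (hW : 2 * wt e < n) {m k r : ℕ} (hT : TwoTypes e m k)
    (h : wt e + (k : ℚ) / m < r + 1) : (n : ℚ) - wt e + (k : ℚ) / m ≤ r + 2 := by
  obtain ⟨p, q, hp, hq, h1, h2, h3⟩ := types he hW m k
  have h4 : q ≤ p + 1 := hT p q hp hq
  have h5 : p ≤ r := by
    have : (p : ℚ) < r + 1 := lt_of_le_of_lt h1 h
    have h6 : p < r + 1 := by exact_mod_cast this
    omega
  have h6 : (q : ℚ) ≤ r + 1 := by exact_mod_cast (by omega : q ≤ r + 1)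
  linarith

lemma odd_necessary {e : Fin n → ℕ} (he : ∀ i, 2 ≤ e i) {m : ℕ} (hm : 2 ≤ m) (hn : Odd n)
    (hA : IsAbelianType e m) : ((n : ℚ) - 1) / 2 ≤ wt e + 1 / m := by
  by_contra hcon
  push Not at hcon
  have hm0 : (2 : ℚ) ≤ m := by exact_mod_cast hm
  have hm1 : (0 : ℚ) < 1 / m := by positivity
  obtain ⟨r, hr⟩ := hn
  have hW : 2 * wt e < n := by linarith
  rcases hA (m - 1) 1 (by omega) one_pos (by omega) with hT | ⟨_, hev, _⟩
  · have hx : ((m - 1 : ℕ) : ℚ) / m = 1 - 1 / m := by
      rw [Nat.cast_sub (by omega), Nat.cast_one, sub_div, div_self (by positivity)]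
    have hnr : (n : ℚ) = 2 * r + 1 := by rw [hr]; push_cast; ring
    have h1 := twoTypes_bound (r := r) he hW hT (by rw [hx]; rw [hnr] at hcon; linarith)
    rw [hx, hnr] at h1
    rw [hnr] at hcon
    linarith
  · rw [hr] at hev
    exact absurd hev (by simp [parity_simps])

lemma even_odd_necessary {e : Fin n → ℕ} (he : ∀ i, 2 ≤ e i) {m : ℕ} (hm : 2 ≤ m) (hn : Even n) (hn1 : 1 ≤ n)
    (hmo : Odd m) (hA : IsAbelianType e m) : ((n : ℚ) - 1) / 2 ≤ wt e + 1 / (2 * m) := by
  by_contra hcon
  push Not at hcon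
  have hm0 : (2 : ℚ) ≤ m := by exact_mod_cast hm
  have hm1 : (0 : ℚ) < 1 / (2 * m) := by positivity
  obtain ⟨r', hr'⟩ := hn
  obtain ⟨r, rfl⟩ : ∃ r, r' = r + 1 := ⟨r' - 1, by omega⟩
  obtain ⟨t, ht⟩ := hmo
  have hW : 2 * wt e < n := by linarith
  rcases hA t (t + 1) (by omega) (by omega) (by omega) with hT | ⟨h, _⟩
  · have hx : (t : ℚ) / m = 1 / 2 - 1 / (2 * m) := by
      have : (m : ℚ) = 2 * t + 1 := by rw [ht]; push_cast; ring
      have h0 : (m : ℚ) ≠ 0 := by positivity
      field_simp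
      rw [this]; ring
    have hnr : (n : ℚ) = 2 * r + 2 := by rw [hr']; push_cast; ring
    have h1 := twoTypes_bound (r := r) he hW hT (by rw [hx]; rw [hnr] at hcon; linarith)
    rw [hx, hnr] at h1
    rw [hnr] at hcon
    linarith
  · omega

lemma even_even_necessary {e : Fin n → ℕ} (he : ∀ i, 2 ≤ e i) {m : ℕ} (hm : 3 ≤ m) (hn : Even n) (hn1 : 1 ≤ n)
    (hme : Even m) (hA : IsAbelianType e m) : ((n : ℚ) - 1) / 2 ≤ wt e + 1 / m := by
  by_contra hcon
  push Not at hcon
  have hm0 : (3 : ℚ) ≤ m := by exact_mod_cast hm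
  have hm1 : (0 : ℚ) < 1 / m := by positivity
  obtain ⟨r', hr'⟩ := hn
  obtain ⟨r, rfl⟩ : ∃ r, r' = r + 1 := ⟨r' - 1, by omega⟩
  obtain ⟨t', ht⟩ := hme
  obtain ⟨t, rfl⟩ : ∃ t, t' = t + 1 := ⟨t' - 1, by omega⟩
  have hW : 2 * wt e < n := by linarith
  rcases hA t (t + 2) (by omega) (by omega) (by omega) with hT | ⟨h, _⟩
  · have hx : (t : ℚ) / m = 1 / 2 - 1 / m := by
      have : (m : ℚ) = 2 * t + 2 := by rw [ht]; push_cast; ring
      have h0 : (m : ℚ) ≠ 0 := by positivity
      field_simp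
      rw [this]; ring
    have hnr : (n : ℚ) = 2 * r + 2 := by rw [hr']; push_cast; ring
    have h1 := twoTypes_bound (r := r) he hW hT (by rw [hx]; rw [hnr] at hcon; linarith)
    rw [hx, hnr] at h1
    rw [hnr] at hcon
    linarith
  · omega

lemma val_mono {e a b : Fin n → ℕ} (h : ∀ i, a i ≤ b i) : val e a ≤ val e b := by
  unfold val
  refine Finset.sum_le_sum fun i _ => ?_
  have h1 : (a i : ℚ) ≤ b i := by exact_mod_cast h i
  gcongr

lemma two_le_val {e a : Fin n → ℕ} (ha : ∀ i, 1 ≤ a i) {i : Fin n} (hi : 2 ≤ a i) :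
    wt e + 1 / e i ≤ val e a := by
  rw [← val_two e i]
  refine val_mono fun j => ?_
  split_ifs with h
  · subst h; exact hi
  · exact ha j

/-- If only `e_i` is at least three, the sum of the weights is large. -/
lemma wt_of_single {e : Fin n → ℕ} (he : ∀ i, 2 ≤ e i) {i : Fin n} (h : ∀ j, j ≠ i → e j < 3) :
    wt e = (n : ℚ) / 2 + (1 / e i - 1 / 2) := by
  unfold wt
  have h1 : ∀ j ∈ Finset.univ, (1 : ℚ) / e j = 1 / 2 + (if j = i then (1 : ℚ) / e j - 1 / 2 else 0) := by
    intro j _
    split_ifs with hj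
    · ring
    · have h2 := h j hj
      have h3 := he j
      have h4 : e j = 2 := by omega
      rw [h4]; norm_num
  rw [Finset.sum_congr rfl h1, Finset.sum_add_distrib, Finset.sum_ite_eq' Finset.univ i]
  simp
  ring

lemma real_necessary {e : Fin n → ℕ} (he : ∀ i, 2 ≤ e i) {m : ℕ} (hm : 2 ≤ m) (hn : Even n) (hn1 : 1 ≤ n)
    (hme : Even m) (hA : IsAbelianType e m) (i₀ : Fin n) : ((n : ℚ) - 1) / 2 ≤ wt e + 1 / e i₀ := by
  by_contra hcon
  push Not at hcon
  obtain ⟨r', hr'⟩ := hn
  obtain ⟨r, rfl⟩ : ∃ r, r' = r + 1 := ⟨r' - 1, by omega⟩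
  obtain ⟨t, ht⟩ := hme
  have hnr : (n : ℚ) = 2 * r + 2 := by rw [hr']; push_cast; ring
  have h0 : (0 : ℚ) ≤ 1 / e i₀ := by positivity
  have hW : 2 * wt e < n := by linarith
  -- an index with `e_i ≥ 3`
  obtain ⟨i, hi, hcon'⟩ : ∃ i, 3 ≤ e i ∧ wt e + 1 / e i < ((n : ℚ) - 1) / 2 := by
    by_cases h3 : 3 ≤ e i₀
    · exact ⟨i₀, h3, hcon⟩
    · obtain ⟨i, hi⟩ := exists_three he hW
      have h4 : e i₀ = 2 := by have := he i₀; omega
      have h5 := inv_le hi
      rw [h4] at hcon
      push_cast at hcon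
      exact ⟨i, hi, by linarith⟩
  clear hcon h0
  rw [hnr] at hcon'
  have hi1 := inv_le hi
  have hi0 := inv_pos' (he i)
  have hx : (t : ℚ) / m = 1 / 2 := by
    have : (m : ℚ) = 2 * t := by rw [ht]; push_cast; ring
    have ht0 : (0 : ℚ) < t := by exact_mod_cast (by omega : 0 < t)
    rw [this]; field_simp
  rcases hA t t (by omega) (by omega) (by omega) with hT | ⟨_, _, hK1, hK2⟩
  · have h1 := twoTypes_bound (r := r) he hW hT (by rw [hx]; linarith)
    rw [hx, hnr] at h1
    linarith
  · obtain ⟨p, q, hp, hq, h1, h2, h3⟩ := types he hW m t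
    rw [hx] at h1 h2 h3
    rw [hnr] at h3
    have h4 := hK1 p q hp hq
    have h5 : p ≤ r := by
      have : (p : ℚ) < r + 1 := by linarith
      have h6 : p < r + 1 := by exact_mod_cast this
      omega
    have h6 : ¬ q ≤ r + 1 := by
      intro h7
      have : (q : ℚ) ≤ r + 1 := by exact_mod_cast h7
      linarith
    have h7 : p = r := by omega
    have h8 : q = r + 2 := by omega
    subst h7
    subst h8
    have h9 := (hK2 p hp hq).1
    unfold hodge at h9
    rw [hx, Finset.card_eq_one] at h9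
    obtain ⟨c, hc⟩ := h9
    have hmi : (fun j => if j = i then 2 else 1 : Fin n → ℕ) ∈ mons e (1 / 2) p := by
      refine mem_mons.mpr ⟨fun j => ?_, ?_, ?_⟩
      · have := he j
        split_ifs with h
        · subst h; omega
        · omega
      · rw [val_two]; linarith
      · rw [val_two]; linarith
    rcases lt_or_eq_of_le h1 with h10 | h10
    · have hm1 : (fun _ => 1 : Fin n → ℕ) ∈ mons e (1 / 2) p := by
        refine mem_mons.mpr ⟨fun j => ⟨le_refl _, ?_⟩, ?_, ?_⟩
        · have := he j; omega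
        · rw [val_one]; linarith
        · rw [val_one]; linarith
      rw [hc, Finset.mem_singleton] at hmi hm1
      have := congrFun (hmi.trans hm1.symm) i
      simp at this
    · obtain ⟨j, hji, hj⟩ : ∃ j, j ≠ i ∧ 3 ≤ e j := by
        by_contra hno
        push Not at hno
        have h11 := wt_of_single he (i := i) hno
        rw [hnr] at h11
        linarith
      have hj1 := inv_le hj
      have hj0 := inv_pos' (he j)
      have hmj : (fun l => if l = j then 2 else 1 : Fin n → ℕ) ∈ mons e (1 / 2) p := by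
        refine mem_mons.mpr ⟨fun l => ?_, ?_, ?_⟩
        · have := he l
          split_ifs with h
          · subst h; omega
          · omega
        · rw [val_two]; linarith
        · rw [val_two]; linarith
      rw [hc, Finset.mem_singleton] at hmi hmj
      have := congrFun (hmi.trans hmj.symm) i
      simp [hji.symm] at this

/-- Two types at distance at least two. -/
lemma bad_pair {e : Fin n → ℕ} (he : ∀ i, 2 ≤ e i) {m k p q : ℕ} (hp : hodge e m k p ≠ 0)
    (hq : hodge e m k q ≠ 0) :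
    wt e + (k : ℚ) / m < p + 1 ∧ (q : ℚ) < n - wt e + (k : ℚ) / m := by
  obtain ⟨a, ha⟩ := exists_of_ne hp
  obtain ⟨b, hb⟩ := exists_of_ne hq
  obtain ⟨ha1, ha2, ha3⟩ := mem_mons.mp ha
  obtain ⟨hb1, hb2, hb3⟩ := mem_mons.mp hb
  have h1 := wt_le (e := e) fun i => (ha1 i).1
  have h2 := le_wt he fun i => (hb1 i).2
  constructor <;> linarith

lemma frac_bounds {m k l : ℕ} (hk : 0 < k) (hl : 0 < l) (hkl : k + l = m) :
    (1 : ℚ) / m ≤ (k : ℚ) / m ∧ (k : ℚ) / m ≤ 1 - 1 / m := by
  have hm : (0 : ℚ) < m := by exact_mod_cast (by omega : 0 < m)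
  have h1 : (1 : ℚ) ≤ k := by exact_mod_cast hk
  have h2 : (k : ℚ) + 1 ≤ m := by exact_mod_cast (by omega : k + 1 ≤ m)
  constructor
  · gcongr
  · rw [le_sub_iff_add_le, ← add_div, div_le_one hm]
    exact h2

lemma sufficient_odd {e : Fin n → ℕ} (he : ∀ i, 2 ≤ e i) {m : ℕ} (hn : Odd n)
    (h : ((n : ℚ) - 1) / 2 ≤ wt e + 1 / m) : IsAbelianType e m := by
  intro k l hk hl hkl
  left
  intro p q hp hq
  by_contra hcon
  obtain ⟨h1, h2⟩ := bad_pair he hp hq
  obtain ⟨h3, h4⟩ := frac_bounds hk hl hkl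
  obtain ⟨r, hr⟩ := hn
  have hnr : (n : ℚ) = 2 * r + 1 := by rw [hr]; push_cast; ring
  rw [hnr] at h h2
  have h5 : (p : ℚ) + 2 ≤ q := by exact_mod_cast (by omega : p + 2 ≤ q)
  have h6 : (r : ℚ) < p + 1 := by linarith
  have h7 : (p : ℚ) + 2 < r + 2 := by linarith
  have h8 : r < p + 1 := by exact_mod_cast h6
  have h9 : p + 2 < r + 2 := by exact_mod_cast h7
  omega

lemma sufficient_even_ne {e : Fin n → ℕ} (he : ∀ i, 2 ≤ e i) {m : ℕ} (hn : Even n) (hn1 : 1 ≤ n) {k l : ℕ}
    (hk : 0 < k) (hl : 0 < l) (hkl : k + l = m) (hne : k ≠ l)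
    (ho : Odd m → ((n : ℚ) - 1) / 2 ≤ wt e + 1 / (2 * m))
    (hv : Even m → ((n : ℚ) - 1) / 2 ≤ wt e + 1 / m) : TwoTypes e m k := by
  intro p q hp hq
  by_contra hcon
  obtain ⟨h1, h2⟩ := bad_pair he hp hq
  obtain ⟨h3, h4⟩ := frac_bounds hk hl hkl
  obtain ⟨r', hr'⟩ := hn
  obtain ⟨r, rfl⟩ : ∃ r, r' = r + 1 := ⟨r' - 1, by omega⟩
  have hnr : (n : ℚ) = 2 * r + 2 := by rw [hr']; push_cast; ring
  have hm : (0 : ℚ) < m := by exact_mod_cast (by omega : 0 < m)
  have h5 : (p : ℚ) + 2 ≤ q := by exact_mod_cast (by omega : p + 2 ≤ q)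
  have hm1 : (0 : ℚ) < 1 / m := by positivity
  rw [hnr] at h2
  have hinv : (1 : ℚ) / (2 * m) = 1 / m / 2 := by ring
  have hm2 : (1 : ℚ) / m ≤ 1 / 2 := by
    have : (2 : ℚ) ≤ m := by exact_mod_cast (by omega : 2 ≤ m)
    gcongr
  -- conclusions for the two halves
  have lower : (p : ℚ) + 2 < r + 2 → (r : ℚ) < p + 1 → False := by
    intro h6 h7
    have h8 : p + 2 < r + 2 := by exact_mod_cast h6
    have h9 : r < p + 1 := by exact_mod_cast h7
    omega
  have upper : (r : ℚ) + 1 < p + 1 → (p : ℚ) + 2 < r + 3 → False := by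
    intro h6 h7
    have h8 : r + 1 < p + 1 := by exact_mod_cast h6
    have h9 : p + 2 < r + 3 := by exact_mod_cast h7
    omega
  rcases Nat.even_or_odd m with hme | hmo
  · have h := hv hme
    rw [hnr] at h
    obtain ⟨t, ht⟩ := hme
    rcases lt_or_gt_of_ne hne with hlt | hgt
    · have h6 : (k : ℚ) / m ≤ 1 / 2 - 1 / m := by
        rw [le_sub_iff_add_le, ← add_div, div_le_iff₀ hm]
        have : (2 : ℚ) * (k + 1) ≤ m := by exact_mod_cast (by omega : 2 * (k + 1) ≤ m)
        linarith
      exact lower (by linarith) (by linarith)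
    · have h6 : 1 / 2 + 1 / m ≤ (k : ℚ) / m := by
        rw [← sub_nonneg, show (k : ℚ) / m - (1 / 2 + 1 / m) = ((k : ℚ) - 1 - m / 2) / m by field_simp; ring]
        have : (m : ℚ) + 2 ≤ 2 * k := by exact_mod_cast (by omega : m + 2 ≤ 2 * k)
        apply div_nonneg _ hm.le
        linarith
      exact upper (by linarith) (by linarith)
  · have h := ho hmo
    rw [hnr, hinv] at h
    obtain ⟨t, ht⟩ := hmo
    rcases lt_or_gt_of_ne hne with hlt | hgt
    · have h6 : (k : ℚ) / m ≤ 1 / 2 - 1 / m / 2 := by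
        rw [le_sub_iff_add_le, show (k : ℚ) / m + 1 / m / 2 = (k + 1 / 2) / m by field_simp, div_le_iff₀ hm]
        have : (2 : ℚ) * k + 1 ≤ m := by exact_mod_cast (by omega : 2 * k + 1 ≤ m)
        linarith
      exact lower (by linarith) (by linarith)
    · have h6 : 1 / 2 + 1 / m / 2 ≤ (k : ℚ) / m := by
        rw [← sub_nonneg, show (k : ℚ) / m - (1 / 2 + 1 / m / 2) = ((k : ℚ) - 1 / 2 - m / 2) / m by field_simp; ring]
        have : (m : ℚ) + 1 ≤ 2 * k := by exact_mod_cast (by omega : m + 1 ≤ 2 * k)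
        apply div_nonneg _ hm.le
        linarith
      exact upper (by linarith) (by linarith)

lemma sufficient_real {e : Fin n → ℕ} (he : ∀ i, 2 ≤ e i) {m k : ℕ} (hn : Even n) (hn1 : 1 ≤ n)
    (hk : 0 < k) (hkm : k + k = m) (h : ∀ i, ((n : ℚ) - 1) / 2 ≤ wt e + 1 / e i) : KThree e m k := by
  obtain ⟨r', hr'⟩ := hn
  obtain ⟨r, rfl⟩ : ∃ r, r' = r + 1 := ⟨r' - 1, by omega⟩
  have hnr : (n : ℚ) = 2 * r + 2 := by rw [hr']; push_cast; ring
  have hx : (k : ℚ) / m = 1 / 2 := by
    have : (m : ℚ) = 2 * k := by rw [← hkm]; push_cast; ring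
    have ht0 : (0 : ℚ) < k := by exact_mod_cast hk
    rw [this]; field_simp
  rw [hnr] at h
  have hWr : (r : ℚ) ≤ wt e := by
    have h1 := h ⟨0, hn1⟩
    have h2 : (1 : ℚ) / e ⟨0, hn1⟩ ≤ 1 / 2 := by
      have : (2 : ℚ) ≤ e ⟨0, hn1⟩ := by exact_mod_cast he _
      gcongr
    linarith
  constructor
  · intro p q hp hq
    by_contra hcon
    obtain ⟨h1, h2⟩ := bad_pair he hp hq
    rw [hx] at h1 h2
    rw [hnr] at h2
    have h3 : (p : ℚ) + 3 ≤ q := by exact_mod_cast (by omega : p + 3 ≤ q)
    linarith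
  · intro q hq hq2
    obtain ⟨h1, h2⟩ := bad_pair he hq hq2
    rw [hx] at h1 h2
    rw [hnr] at h2
    push_cast at h2
    have h3 : q = r := by
      have h4 : (r : ℚ) < q + 1 := by linarith
      have h5 : (q : ℚ) < r + 1 := by linarith
      have h6 : r < q + 1 := by exact_mod_cast h4
      have h7 : q < r + 1 := by exact_mod_cast h5
      omega
    subst h3
    have low1 : ∀ a ∈ mons e ((k : ℚ) / m) q, a = fun _ => 1 := by
      intro a ha
      obtain ⟨ha1, ha2, ha3⟩ := mem_mons.mp ha
      rw [hx] at ha3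
      funext i
      by_contra hne
      have h4 := two_le_val (e := e) (a := a) (fun j => (ha1 j).1) (i := i) (by
        have := (ha1 i).1
        omega)
      have h5 := h i
      linarith
    have high1 : ∀ a ∈ mons e ((k : ℚ) / m) (q + 2), a = fun i => e i - 1 := by
      intro a ha
      obtain ⟨ha1, ha2, ha3⟩ := mem_mons.mp ha
      rw [hx] at ha2
      push_cast at ha2
      funext i
      by_contra hne
      have h4 := two_le_val (e := e) (a := fun j => e j - a j) (fun j => by have := (ha1 j).2; omega)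
        (i := i) (by
          have := ha1 i
          show 2 ≤ e i - a i
          omega)
      rw [val_compl he fun j => (ha1 j).2.le, hnr] at h4
      have h5 := h i
      linarith
    constructor
    · obtain ⟨a, ha⟩ := exists_of_ne hq
      unfold hodge
      rw [Finset.card_eq_one]
      exact ⟨a, Finset.eq_singleton_iff_unique_mem.mpr ⟨ha, fun b hb => by rw [low1 b hb, low1 a ha]⟩⟩
    · obtain ⟨a, ha⟩ := exists_of_ne hq2
      unfold hodge
      rw [Finset.card_eq_one]
      exact ⟨a, Finset.eq_singleton_iff_unique_mem.mpr ⟨ha, fun b hb => by rw [high1 b hb, high1 a ha]⟩⟩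

/-- The criterion. -/
theorem criterion {e : Fin n → ℕ} (he : ∀ i, 2 ≤ e i) {m : ℕ} (hn1 : 1 ≤ n) (hm : 2 ≤ m) :
    IsAbelianType e m ↔
      (Odd n → ((n : ℚ) - 1) / 2 ≤ wt e + 1 / m) ∧
      (Even n → Odd m → ((n : ℚ) - 1) / 2 ≤ wt e + 1 / (2 * m)) ∧
      (Even n → Even m → ((n : ℚ) - 1) / 2 ≤ wt e + 1 / m ∧ ∀ i, ((n : ℚ) - 1) / 2 ≤ wt e + 1 / e i) := by
  constructor
  · intro hA
    refine ⟨fun hn => odd_necessary he hm hn hA, fun hn hmo => even_odd_necessary he hm hn hn1 hmo hA,
      fun hn hme => ?_⟩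
    have hr := real_necessary he hm hn hn1 hme hA
    refine ⟨?_, hr⟩
    by_cases hm3 : 3 ≤ m
    · exact even_even_necessary he hm3 hn hn1 hme hA
    · have hm2 : m = 2 := by omega
      have h1 := hr ⟨0, hn1⟩
      have h2 : (1 : ℚ) / e ⟨0, hn1⟩ ≤ 1 / 2 := by
        have : (2 : ℚ) ≤ e ⟨0, hn1⟩ := by exact_mod_cast he _
        gcongr
      rw [hm2]
      push_cast
      linarith
  · rintro ⟨h1, h2, h3⟩
    rcases Nat.even_or_odd n with hn | hn
    · intro k l hk hl hkl
      by_cases hne : k = l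
      · subst hne
        have hme : Even m := ⟨k, hkl.symm⟩
        exact Or.inr ⟨rfl, hn, sufficient_real he hn hn1 hk hkl (h3 hn hme).2⟩
      · exact Or.inl (sufficient_even_ne he hn hn1 hk hl hkl hne (h2 hn) fun hme => (h3 hn hme).1)
    · exact sufficient_odd he hn (h1 hn)

/-- All `m`: the polynomials with simple or simply elliptic singularity at infinity. -/
theorem all_m {e : Fin n → ℕ} (he : ∀ i, 2 ≤ e i) (hn1 : 1 ≤ n) :
    (∀ m, 2 ≤ m → IsAbelianType e m) ↔ ((n : ℚ) - 1) / 2 ≤ wt e := by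
  constructor
  · intro h
    by_contra hcon
    push Not at hcon
    obtain ⟨N, hN⟩ := exists_nat_gt (1 / (((n : ℚ) - 1) / 2 - wt e))
    have hd : 0 < ((n : ℚ) - 1) / 2 - wt e := by linarith
    have hN0 : (0 : ℚ) < N := lt_trans (by positivity) hN
    have h1 : (1 : ℚ) / (2 * N + 1) < ((n : ℚ) - 1) / 2 - wt e := by
      rw [div_lt_iff₀ hd] at hN
      rw [div_lt_iff₀ (by positivity)]
      nlinarith
    have hN1 : 1 ≤ N := by
      rcases Nat.eq_zero_or_pos N with h2 | h2
      · subst h2; simp at hN0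
      · exact h2
    obtain ⟨c1, c2, c3⟩ := (criterion he hn1 (m := 2 * N + 1) (by omega)).mp (h _ (by omega))
    rcases Nat.even_or_odd n with hn | hn
    · have h2 := c2 hn ⟨N, rfl⟩
      push_cast at h2
      have h3 : (1 : ℚ) / (2 * (2 * N + 1)) ≤ 1 / (2 * N + 1) := by
        apply div_le_div_of_nonneg_left zero_le_one (by positivity)
        linarith
      linarith
    · have h2 := c1 hn
      push_cast at h2
      linarith
  · intro h m hm
    have hm0 : (0 : ℚ) < 1 / m := by
      have : (0 : ℚ) < m := by exact_mod_cast (by omega : 0 < m)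
      positivity
    have hm1 : (0 : ℚ) < 1 / (2 * m) := by
      have : (0 : ℚ) < m := by exact_mod_cast (by omega : 0 < m)
      positivity
    refine (criterion he hn1 hm).mpr ⟨fun _ => by linarith, fun _ _ => by linarith, fun _ _ => ⟨by linarith, fun i => ?_⟩⟩
    have := inv_pos' (he i)
    linarith

end

/-! ## Part B -/

section

variable {ι : Type} [Fintype ι]

lemma ab_ne {d : ι → ℕ} {α : ι → ℚ} (h : 3 ≤ level d α) (hD : 0 < ∑ i, d i) :
    h20Ab d α ≠ 0 := by
  unfold h20Ab
  rw [Finset.card_ne_zero]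
  refine ⟨(0, 0), ?_⟩
  simp only [Finset.mem_filter, Finset.mem_product, Finset.mem_range]
  refine ⟨⟨hD, hD⟩, ?_⟩
  simpa using h

lemma ab_zero {d : ι → ℕ} {α : ι → ℚ} (h : level d α < 3) : h20Ab d α = 0 := by
  unfold h20Ab
  rw [Finset.card_eq_zero, Finset.filter_eq_empty_iff]
  intro a _ ha
  have h1 : (0 : ℚ) ≤ a.1 := Nat.cast_nonneg _
  have h2 : (0 : ℚ) ≤ a.2 := Nat.cast_nonneg _
  linarith

lemma ab_one {d : ι → ℕ} {α : ι → ℚ} (h : level d α ≤ 3) : h20Ab d α ≤ 1 := by
  unfold h20Ab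
  rw [Finset.card_le_one]
  have key : ∀ a : ℕ × ℕ, (a.1 : ℚ) + a.2 + 3 ≤ level d α → a = (0, 0) := by
    rintro ⟨i, j⟩ ha
    have h1 : (i : ℚ) + j ≤ 0 := by
      simp only at ha
      linarith
    have h2 : i + j ≤ 0 := by exact_mod_cast h1
    have h3 : i = 0 ∧ j = 0 := by omega
    rw [h3.1, h3.2]
  intro a ha b hb
  rw [key a (Finset.mem_filter.mp ha).2, key b (Finset.mem_filter.mp hb).2]

lemma level_add_bar (d : ι → ℕ) (α : ι → ℚ) :
    level d α + level d (bar α) ≤ ((∑ i, d i : ℕ) : ℚ) := by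
  unfold level
  rw [← Finset.sum_add_distrib, Nat.cast_sum]
  refine Finset.sum_le_sum fun i _ => ?_
  have hd : (0 : ℚ) ≤ d i := Nat.cast_nonneg _
  unfold bar
  split_ifs with h
  · rw [h]
    simp
  · have : (d i : ℚ) * α i + d i * (1 - α i) = d i := by ring
    rw [this]

theorem covers (d : ι → ℕ) (hd : ∀ i, 0 < d i) : IsChiralAb d ↔
    ∑ i, d i ≤ 5 ∨ (Fintype.card ι = 1 ∧ ∑ i, d i = 6) := by
  constructor
  · intro hch
    by_contra hcon
    rw [not_or, not_le] at hcon
    obtain ⟨h5, h6⟩ := hcon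
    obtain ⟨D, hD⟩ : ∃ D, D = ∑ i, d i := ⟨_, rfl⟩
    rw [← hD] at h5 h6
    have hDq : (D : ℚ) = ∑ i, (d i : ℚ) := by rw [hD]; push_cast; rfl
    have hD0 : (0 : ℚ) < D := by exact_mod_cast (by omega : 0 < D)
    -- it suffices to find a character
    have hfin : ∀ α : ι → ℚ, (∀ i, 0 < α i ∧ α i < 1) → level d α = 3 → bar α ≠ α → False := by
      intro α h1 h2 h3
      have hb : level d (bar α) = D - 3 := by
        have h4 : bar α = fun i => 1 - α i := by
          funext i
          unfold bar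
          rw [if_neg (h1 i).1.ne']
        rw [h4]
        unfold level
        rw [hDq, ← h2]
        unfold level
        rw [← Finset.sum_sub_distrib]
        refine Finset.sum_congr rfl fun i _ => ?_
        ring
      have h4 := (hch α ⟨fun i => ⟨(h1 i).1.le, (h1 i).2⟩, 3, by rw [h2]; norm_num⟩).2 h3
      rcases h4 with h4 | h4
      · exact ab_ne (by rw [h2]) (by omega) h4
      · refine ab_ne ?_ (by omega) h4
        rw [hb]
        have : (6 : ℚ) ≤ D := by exact_mod_cast h5
        linarith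
    rcases Nat.lt_or_ge 6 D with h7 | h7
    · -- `D ≥ 7`: all exponents are `3 / D`
      have h7q : (6 : ℚ) < D := by exact_mod_cast h7
      obtain ⟨i₀⟩ : Nonempty ι := by
        by_contra hne
        rw [not_nonempty_iff] at hne
        have : ∑ i, d i = 0 := by simp
        omega
      refine hfin (fun _ => 3 / D) (fun i => ⟨by positivity, ?_⟩) ?_ ?_
      · rw [div_lt_one hD0]
        linarith
      · unfold level
        rw [← Finset.sum_mul, ← hDq]
        field_simp
      · intro h
        have h8 := congrFun h i₀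
        unfold bar at h8
        rw [if_neg (by positivity)] at h8
        field_simp at h8
        linarith
    · -- `D = 6`: two exponents are moved away from `1 / 2`
      have hD6 : D = 6 := by omega
      have hcard : 1 < Fintype.card ι := by
        have h0 : Fintype.card ι ≠ 0 := by
          intro h0
          rw [Fintype.card_eq_zero_iff] at h0
          have : ∑ i, d i = 0 := by simp
          omega
        have h1 : Fintype.card ι ≠ 1 := fun h => h6 ⟨h, hD6⟩
        omega
      obtain ⟨a, b, hab⟩ := Fintype.one_lt_card_iff.mp hcard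
      classical
      have hle : ∀ i, (d i : ℚ) ≤ 6 := by
        intro i
        have h1 : d i ≤ ∑ i, d i := Finset.single_le_sum (fun _ _ => Nat.zero_le _)
          (Finset.mem_univ i)
        have h2 : d i ≤ 6 := by omega
        exact_mod_cast h2
      have hpos : ∀ i, (0 : ℚ) < d i := fun i => by exact_mod_cast hd i
      refine hfin (fun i => 1 / 2 + (if i = a then (d b : ℚ) / 20 else 0) -
        (if i = b then (d a : ℚ) / 20 else 0)) (fun i => ?_) ?_ ?_
      · have h1 := hle a
        have h2 := hle b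
        have h3 := hpos a
        have h4 := hpos b
        split_ifs <;> constructor <;> linarith
      · unfold level
        have h1 : ∀ i, (d i : ℚ) * (1 / 2 + (if i = a then (d b : ℚ) / 20 else 0) -
            (if i = b then (d a : ℚ) / 20 else 0)) = (d i : ℚ) * (1 / 2) +
            (if i = a then (d a : ℚ) * ((d b : ℚ) / 20) else 0) -
            (if i = b then (d b : ℚ) * ((d a : ℚ) / 20) else 0) := by
          intro i
          split_ifs with h2 h3 h3
          · exact absurd (h2.symm.trans h3) hab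
          · rw [h2]; ring
          · rw [h3]; ring
          · ring
        rw [Finset.sum_congr rfl fun i _ => h1 i, Finset.sum_sub_distrib, Finset.sum_add_distrib,
          Finset.sum_ite_eq' Finset.univ a, Finset.sum_ite_eq' Finset.univ b,
          if_pos (Finset.mem_univ a), if_pos (Finset.mem_univ b), ← Finset.sum_mul, ← hDq, hD6]
        push_cast
        ring
      · intro h
        have h8 := congrFun h a
        have h4 := hpos b
        unfold bar at h8
        simp only [if_true, if_neg hab, sub_zero] at h8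
        rw [if_neg (by positivity)] at h8
        linarith
  · intro h α hα
    obtain ⟨h1, n, hn⟩ := hα
    have hb : ∀ i, 0 ≤ bar α i := by
      intro i
      unfold bar
      split_ifs
      · exact le_rfl
      · linarith [(h1 i).2]
    have hsum := level_add_bar d α
    rcases h with h | ⟨hc, h⟩
    · have h5 : ((∑ i, d i : ℕ) : ℚ) ≤ 5 := by exact_mod_cast h
      constructor
      · intro he
        rw [he] at hsum
        exact ab_one (by linarith)
      · intro _
        by_contra hcon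
        rw [not_or] at hcon
        have h3 : 3 ≤ level d α := by
          by_contra hlt
          exact hcon.1 (ab_zero (by linarith))
        have h4 : 3 ≤ level d (bar α) := by
          by_contra hlt
          exact hcon.2 (ab_zero (by linarith))
        linarith
    · have h6 : ((∑ i, d i : ℕ) : ℚ) = 6 := by rw [h]; norm_num
      constructor
      · intro he
        rw [he] at hsum
        exact ab_one (by linarith)
      · intro hne
        by_contra hcon
        rw [not_or] at hcon
        have h3 : 3 ≤ level d α := by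
          by_contra hlt
          exact hcon.1 (ab_zero (by linarith))
        have h4 : 3 ≤ level d (bar α) := by
          by_contra hlt
          exact hcon.2 (ab_zero (by linarith))
        apply hne
        obtain ⟨i₀, hi₀⟩ := Fintype.card_eq_one_iff.mp hc
        have h7 : level d α = d i₀ * α i₀ := by
          unfold level
          rw [Fintype.sum_eq_single i₀]
          intro x hx
          exact absurd (hi₀ x) hx
        have h8 : d i₀ = 6 := by
          rw [← h, Fintype.sum_eq_single i₀]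
          intro x hx
          exact absurd (hi₀ x) hx
        have h9 : α i₀ = 1 / 2 := by
          rw [h8] at h7
          push_cast at h7
          linarith
        funext i
        rw [hi₀ i]
        unfold bar
        rw [h9]
        norm_num

lemma h31_zero {d : ι → ℕ} {α : ι → ℚ} {n : ℕ} (hn : level d α < n + 1)
    (h : ∀ i, n + d i ≤ 4) : h31 d α = 0 := by
  unfold h31
  have h1 : ⌊level d α⌋₊ ≤ n := by
    rw [← Nat.lt_succ_iff]
    rcases lt_or_ge (level d α) 0 with h0 | h0
    · rw [Nat.floor_of_nonpos h0.le]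
      exact Nat.succ_pos n
    · rw [Nat.floor_lt h0]
      push_cast
      exact hn
  have h2 : (∑ i, if α i = 0 then 0 else (⌊level d α⌋₊ + d i - 1).choose 4) = 0 := by
    refine Finset.sum_eq_zero fun i _ => ?_
    split_ifs
    · rfl
    · refine Nat.choose_eq_zero_of_lt ?_
      have := h i
      omega
  rw [h2, Nat.zero_sub]

lemma h31_pos {d : ι → ℕ} {α : ι → ℚ} {n : ℕ} (hn : level d α = n) (h4 : n < 4) {i : ι}
    (hi : α i ≠ 0) (h : 5 ≤ n + d i) : h31 d α ≠ 0 := by
  unfold h31
  have h1 : ⌊level d α⌋₊ = n := by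
    rw [hn]
    exact Nat.floor_natCast n
  rw [h1, Nat.choose_eq_zero_of_lt h4, mul_zero, Nat.sub_zero]
  intro h0
  rw [Finset.sum_eq_zero_iff] at h0
  have h2 := h0 i (Finset.mem_univ i)
  rw [if_neg hi, Nat.choose_eq_zero_iff] at h2
  omega

lemma h40_zero {d : ι → ℕ} {α : ι → ℚ} (h : level d α < 5) : h40 d α = 0 := by
  unfold h40
  refine Nat.choose_eq_zero_of_lt ?_
  have h1 : ⌊level d α⌋₊ < 5 := by
    rcases lt_or_ge (level d α) 0 with h0 | h0
    · rw [Nat.floor_of_nonpos h0.le]
      norm_num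
    · rw [Nat.floor_lt h0]
      exact_mod_cast h
  omega

lemma h40_pos {d : ι → ℕ} {α : ι → ℚ} (h : 5 ≤ level d α) : h40 d α ≠ 0 := by
  unfold h40
  rw [Ne, Nat.choose_eq_zero_iff]
  have h1 : 5 ≤ ⌊level d α⌋₊ := Nat.le_floor (by exact_mod_cast h)
  omega

/-- The classification. -/
theorem covers4 (d : ι → ℕ) (hd : ∀ i, 0 < d i) : IsChiral4 d ↔
    ∑ i, d i ≤ 3 ∨ (∑ i, d i ≤ 5 ∧ ∀ i, d i ≤ 2) := by
  obtain ⟨D, hD⟩ : ∃ D, D = ∑ i, d i := ⟨_, rfl⟩
  have hDq : (D : ℚ) = ∑ i, (d i : ℚ) := by rw [hD]; push_cast; rfl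
  have hle : ∀ i, d i ≤ D := by
    intro i
    rw [hD]
    exact Finset.single_le_sum (fun _ _ => Nat.zero_le _) (Finset.mem_univ i)
  rw [← hD]
  constructor
  · intro hch
    by_contra hcon
    rw [not_or, not_and, not_le] at hcon
    obtain ⟨h3, h5⟩ := hcon
    have hD0 : (0 : ℚ) < D := by exact_mod_cast (by omega : 0 < D)
    have hconst : ∀ c : ℚ, level d (fun _ => c) = D * c := by
      intro c
      unfold level
      rw [← Finset.sum_mul, hDq]
    -- `D ≤ 5`
    have hD5 : D ≤ 5 := by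
      by_contra hlt
      rw [not_le] at hlt
      have hq : (6 : ℚ) ≤ D := by exact_mod_cast hlt
      have hl : level d (fun _ => 1 - 1 / (D : ℚ)) = D - 1 := by
        rw [hconst]
        field_simp
      refine h40_pos ?_ (hch (fun _ => 1 - 1 / (D : ℚ)) ⟨fun i => ⟨?_, ?_⟩, D - 1, ?_⟩).1
      · rw [hl]
        linarith
      · rw [sub_nonneg, div_le_one hD0]
        linarith
      · have : 0 < 1 / (D : ℚ) := by positivity
        linarith
      · rw [hl, Nat.cast_sub (by omega)]
        norm_num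
    -- there is a component of degree at least `3`
    have h2 := h5 hD5
    push Not at h2
    obtain ⟨j, hj⟩ := h2
    have hjD := hle j
    -- it suffices to find a character
    have hfin : ∀ (α : ι → ℚ) (n m : ℕ), (∀ i, 0 < α i ∧ α i < 1) → level d α = n →
        n + m = D → n < 4 → m < 4 → 5 ≤ n + d j → 5 ≤ m + d j → bar α ≠ α → False := by
      intro α n m h1 h2 hnm hn hm hn5 hm5 hne
      have hb : level d (bar α) = m := by
        have h4 : bar α = fun i => 1 - α i := by
          funext i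
          unfold bar
          rw [if_neg (h1 i).1.ne']
        have h6 : level d (fun i => 1 - α i) = D - level d α := by
          unfold level
          rw [hDq, ← Finset.sum_sub_distrib]
          refine Finset.sum_congr rfl fun i _ => ?_
          ring
        rw [h4, h6, h2, ← hnm]
        push_cast
        ring
      have hbj : bar α j ≠ 0 := by
        unfold bar
        rw [if_neg (h1 j).1.ne']
        have := (h1 j).2
        intro h0
        linarith
      rcases (hch α ⟨fun i => ⟨(h1 i).1.le, (h1 i).2⟩, n, h2⟩).2.2 hne with h4 | h4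
      · exact h31_pos h2 hn (h1 j).1.ne' hn5 h4
      · exact h31_pos hb hm hbj hm5 h4
    have hne : ∀ c : ℚ, c ≠ 0 → c ≠ 1 / 2 → bar (fun _ : ι => c) ≠ fun _ => c := by
      intro c h0 h1 h
      have h8 := congrFun h j
      unfold bar at h8
      rw [if_neg h0] at h8
      apply h1
      linarith
    rcases (by omega : D = 4 ∨ D = 5) with h4 | h4
    · rcases (by omega : d j = 3 ∨ d j = 4) with hj3 | hj4
      · -- exponents `2 / 5` and `4 / 5`
        classical
        refine hfin (fun i => 4 / 5 - if i = j then 2 / 5 else 0) 2 2 (fun i => ?_) ?_ (by omega)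
          (by norm_num) (by norm_num) (by omega) (by omega) ?_
        · split_ifs <;> constructor <;> norm_num
        · unfold level
          have h6 : ∀ i, (d i : ℚ) * (4 / 5 - if i = j then 2 / 5 else 0) =
              (d i : ℚ) * (4 / 5) - if i = j then (d j : ℚ) * (2 / 5) else 0 := by
            intro i
            split_ifs with h7
            · rw [h7]; ring
            · ring
          rw [Finset.sum_congr rfl fun i _ => h6 i, Finset.sum_sub_distrib,
            Finset.sum_ite_eq' Finset.univ j, if_pos (Finset.mem_univ j), ← Finset.sum_mul, ← hDq,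
            h4, hj3]
          norm_num
        · intro h
          have h8 := congrFun h j
          unfold bar at h8
          norm_num at h8
      · -- one quartic
        refine hfin (fun _ => 1 / 4) 1 3 (fun i => by norm_num) ?_ (by omega) (by norm_num)
          (by norm_num) (by omega) (by omega) (hne _ (by norm_num) (by norm_num))
        rw [hconst, h4]
        norm_num
    · -- `D = 5`: all exponents are `2 / 5`
      refine hfin (fun _ => 2 / 5) 2 3 (fun i => by norm_num) ?_ (by omega) (by norm_num)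
        (by norm_num) (by omega) (by omega) (hne _ (by norm_num) (by norm_num))
      rw [hconst, h4]
      norm_num
  · intro h α hα
    obtain ⟨h1, n, hn⟩ := hα
    have hsum := level_add_bar d α
    rw [← hD] at hsum
    have hlt : level d α < 5 := by
      have hD5 : (D : ℚ) ≤ 5 := by
        have : D ≤ 5 := by omega
        exact_mod_cast this
      rcases isEmpty_or_nonempty ι with he | he
      · unfold level
        simp
      · refine lt_of_lt_of_le ?_ hD5
        rw [hDq]
        unfold level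
        refine Finset.sum_lt_sum_of_nonempty Finset.univ_nonempty fun i _ => ?_
        have h2 : (0 : ℚ) < d i := by exact_mod_cast hd i
        have h3 := (h1 i).2
        nlinarith
    -- a bound for the degrees
    obtain ⟨t, ht, htd⟩ : ∃ t : ℕ, D ≤ 2 * t + 1 ∧ ∀ i, t + d i ≤ 4 := by
      rcases h with h | ⟨h, h2⟩
      · refine ⟨1, by omega, fun i => ?_⟩
        have := hle i
        omega
      · refine ⟨2, by omega, fun i => ?_⟩
        have := h2 i
        omega
    have htq : (D : ℚ) ≤ 2 * t + 1 := by exact_mod_cast ht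
    have hmin : h31 d α = 0 ∨ h31 d (bar α) = 0 := by
      by_contra hcon
      rw [not_or] at hcon
      have h3 : (t : ℚ) + 1 ≤ level d α := by
        by_contra hlt
        rw [not_le] at hlt
        exact hcon.1 (h31_zero hlt htd)
      have h4 : (t : ℚ) + 1 ≤ level d (bar α) := by
        by_contra hlt
        rw [not_le] at hlt
        exact hcon.2 (h31_zero hlt htd)
      linarith
    refine ⟨h40_zero hlt, fun he => ?_, fun _ => hmin⟩
    rw [he, or_self] at hmin
    rw [hmin]
    exact Nat.zero_le _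

end

/-- (1) Criterion for `z^m = f(x_1, …, x_n)`: all pieces of the middle cohomology have at most two Hodge types
(for even `n` the piece of order two may be of K3 type). (2) It holds for all `m` if and only if
`∑ 1 / e_i ≥ (n - 1) / 2`. (3) Surfaces `z^m = f(x, y)` for all `m` at once, `f` with any Newton polygon which
contains the origin: the list. (4) Abelian covers of the plane. (5) Abelian covers of four-space. -/
theorem result :
    (∀ (n : ℕ) (e : Fin n → ℕ) (m : ℕ), 1 ≤ n → (∀ i, 2 ≤ e i) → 2 ≤ m → (IsAbelianType e m ↔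
      (Odd n → ((n : ℚ) - 1) / 2 ≤ wt e + 1 / m) ∧
      (Even n → Odd m → ((n : ℚ) - 1) / 2 ≤ wt e + 1 / (2 * m)) ∧
      (Even n → Even m → ((n : ℚ) - 1) / 2 ≤ wt e + 1 / m ∧ ∀ i, ((n : ℚ) - 1) / 2 ≤ wt e + 1 / e i))) ∧
    (∀ (n : ℕ) (e : Fin n → ℕ), 1 ≤ n → (∀ i, 2 ≤ e i) →
      ((∀ m, 2 ≤ m → IsAbelianType e m) ↔ ((n : ℚ) - 1) / 2 ≤ wt e)) ∧
    (∀ A : Finset (ℤ × ℤ), ((0, 0) : ℤ × ℤ) ∈ A →
      ((∀ m, AllM.IsChiral A m) ↔ AllM.NoEvenPoint A) ∧ ((∀ m, AllM.IsChiral A m) ↔ AllM.InList A)) ∧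
    ∀ (ι : Type) [Fintype ι] (d : ι → ℕ), (∀ i, 0 < d i) →
      (IsChiralAb d ↔ ∑ i, d i ≤ 5 ∨ (Fintype.card ι = 1 ∧ ∑ i, d i = 6)) ∧
      (IsChiral4 d ↔ ∑ i, d i ≤ 3 ∨ (∑ i, d i ≤ 5 ∧ ∀ i, d i ≤ 2)) :=
  ⟨fun _ _ _ hn he hm => criterion he hn hm, fun _ _ hn he => all_m he hn,
    fun _ h0 => AllM.allM h0, fun _ _ d hd => ⟨covers d hd, covers4 d hd⟩⟩

end Pool.Agent.Results.MP_938ce2_ag.CyclicCovers
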