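import Mathlib
import Pool.Agent.Lib.MP_938ce2_ag_h1Z.Tors
import Pool.Agent.Lib.MP_938ce2_ag_h6.Frobenius

/-!
# Tate classes on Fermat varieties of every even dimension and every degree

The primitive cohomology `H^n` of the Fermat variety of degree `m` and even dimension `n` is the
direct sum of lines `V(s)`, where `s` runs over the families of `n + 2` nonzero residues modulo `m`
with sum zero.  By Weil the Frobenius at a prime of `ℚ(μ_m)` of degree one above `p` acts on `V(s)`,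
up to sign, as `p⁻¹ ∏ g(χ ^ a, ψ)`, where `χ` is a character of order `m` modulo `p`; so
`V(s)(n / 2)` consists of Tate classes iff `IsTate s`.  The pull-back of `V(s)` to the Fermat
variety of degree `M`, `m ∣ M`, is `V(lift M s)`.
-/

set_option autoImplicit false

open Finset

namespace Pool.Agent.Results.MP_938ce2_ag.EveryFermat

/-- The Tate condition, in terms of Frobenius eigenvalues: some power of
`∏ g(χ ^ a, ψ) / p ^ (l / 2)`, the product over the `l` elements `a` of `s`, is one, for all `p`,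
`χ`, `ψ`. -/
def IsTate {m : ℕ} (s : Multiset (ZMod m)) : Prop :=
  (0 : ZMod m) ∉ s ∧ s.sum = 0 ∧
    ∀ (p : ℕ) [Fact p.Prime] (χ : MulChar (ZMod p) ℂ) (ψ : AddChar (ZMod p) ℂ),
      orderOf χ = m → ψ ≠ 1 → ∃ k, 0 < k ∧
        (s.map fun a => gaussSum (χ ^ a.val) ψ).prod ^ (2 * k) = (p : ℂ) ^ (s.card * k)

/-- The class of characters generated by basic ones: `low`, Tate classes of Fermat varieties of
dimension at most `2 * r - 2`; `tors`, Tate classes of Fermat varieties of degree `Q` and dimension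
at most `2 * k - 2` (there are none for `Q = 1`); `aoki`, the cycles of Aoki attached to an odd prime
`p` dividing `m`; `join` and `cut`, the inductive structure of Shioda and Katsura. -/
inductive IsAlg {m : ℕ} [NeZero m] (r k Q : ℕ) : Multiset (ZMod m) → Prop
  | low (s : Multiset (ZMod m)) : IsTate s → s.card ≤ 2 * r → IsAlg r k Q s
  | tors (s : Multiset (ZMod m)) : IsTate s → s.card ≤ 2 * k →
      (∀ x ∈ s, (Q : ZMod m) * x = 0) → IsAlg r k Q s
  | aoki (p : ℕ) (a : ZMod m) : p.Prime → p ≠ 2 → p ∣ m → (p : ZMod m) * a ≠ 0 →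
      IsAlg r k Q ((univ.filter fun x : ZMod m => (p : ZMod m) * x = (p : ZMod m) * a).val
        + {-((p : ZMod m) * a)})
  | join (s t : Multiset (ZMod m)) : IsAlg r k Q s → IsAlg r k Q t → IsAlg r k Q (s + t)
  | cut (s : Multiset (ZMod m)) (b : ZMod m) : b ≠ 0 → IsAlg r k Q (s + {b, -b}) →
      IsAlg r k Q s

/-- The character of degree `M` obtained from one of degree `m`, for `m ∣ M`. -/
def lift (M : ℕ) {m : ℕ} (s : Multiset (ZMod m)) : Multiset (ZMod M) :=
  s.map fun a => ((M / m * a.val : ℕ) : ZMod M)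

open Pool.Agent.Lib

lemma isTate_iff {m : ℕ} [NeZero m] (s : Multiset (ZMod m)) :
    IsTate s ↔ MP_938ce2_ag_h6.IsTate s :=
  MP_938ce2_ag_h6.Frob.frobTate_iff s

lemma toAlg {m : ℕ} [NeZero m] {r k Q : ℕ} (hr : 2 ≤ r) {G : Multiset (ZMod m) → Prop}
    (hG : ∀ s, G s → s.card ≤ 2 * r ∨ s.card ≤ 2 * k ∧ ∀ x ∈ s, (Q : ZMod m) * x = 0)
    {s : Multiset (ZMod m)} (h : MP_938ce2_ag_h99.IsAlgG G s) : IsAlg r k Q s := by
  induction h with
  | low s h1 h2 => exact IsAlg.low s ((isTate_iff s).mpr h1) (by omega)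
  | base s h1 h2 =>
    rcases hG s h2 with h2 | h2
    · exact IsAlg.low s ((isTate_iff s).mpr h1) h2
    · exact IsAlg.tors s ((isTate_iff s).mpr h1) h2.1 h2.2
  | aoki p a h1 h2 h3 h4 => exact IsAlg.aoki p a h1 h2 h3 h4
  | join s t _ _ h1 h2 => exact IsAlg.join s t h1 h2
  | cut s b h1 _ h2 => exact IsAlg.cut s b h1 h2

lemma lift_eq {m M : ℕ} [NeZero m] (h : m ∣ M) (s : Multiset (ZMod m)) :
    lift M s = s.map (MP_938ce2_ag_h99.jj h) := by
  unfold lift
  apply Multiset.map_congr rfl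
  intro a _
  rw [← MP_938ce2_ag_h99.jj_natCast h, ZMod.natCast_zmod_val]

/-- For every `k` there is `Q` such that all Tate characters of the Fermat varieties of dimension
`2 * k - 2` of all degrees `m` have a lift in `IsAlg 2 k Q`. For all `r ≥ 2` there is a constant `C`
such that for all degrees `m` at most `C * m ^ (k - r - 1)` Tate characters have no lift in
`IsAlg r k 1`; there are at least `(m - 1) ^ k` Tate characters. -/
theorem result (k : ℕ) :
    (∃ Q : ℕ, 0 < Q ∧ ∀ (m : ℕ) [NeZero m] (a : Fin (2 * k) → ZMod m), IsTate (univ.val.map a) →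
      ∃ (M : ℕ) (_ : NeZero M), m ∣ M ∧ IsAlg 2 k Q (lift M (univ.val.map a))) ∧
    (∀ r : ℕ, 2 ≤ r → ∃ C : ℕ, ∀ (m : ℕ) [NeZero m],
      {a : Fin (2 * k) → ZMod m | IsTate (univ.val.map a) ∧
        ¬ ∃ (M : ℕ) (_ : NeZero M), m ∣ M ∧ IsAlg r k 1 (lift M (univ.val.map a))}.encard ≤
          ((C * m ^ (k - r - 1) : ℕ) : ℕ∞)) ∧
    ∀ (m : ℕ) [NeZero m], (((m - 1) ^ k : ℕ) : ℕ∞) ≤
      {a : Fin (2 * k) → ZMod m | IsTate (univ.val.map a)}.encard := by
  refine ⟨?_, fun r hr => ?_, fun m _ => ?_⟩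
  · obtain ⟨Q, hQ, h⟩ := MP_938ce2_ag_h1Z.finiteA k
    refine ⟨Q, hQ, fun m _ a ha => ?_⟩
    obtain ⟨M, hM, h1, h2⟩ := h m a ((isTate_iff _).mp ha)
    refine ⟨M, hM, h1, ?_⟩
    rw [lift_eq h1]
    exact toAlg le_rfl (fun s hs => Or.inr hs) h2
  · obtain ⟨C, hC⟩ := MP_938ce2_ag_h1Z.every
      (G := fun M _ (s : Multiset (ZMod M)) => s.card ≤ 2 * r)
      (fun M _ s hs => by rwa [Multiset.card_map]) hr one_pos
      (MP_938ce2_ag_h1Z.base_card r) k
    refine ⟨C, fun m _ => (Set.encard_le_encard ?_).trans (hC m)⟩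
    rintro a ⟨h1, h2⟩
    refine ⟨(isTate_iff _).mp h1, fun ⟨M, hM, h3, h4⟩ => h2 ⟨M, hM, h3, ?_⟩⟩
    rw [lift_eq h3]
    exact toAlg hr (fun s hs => Or.inl hs) h4
  · have h1 : {a : Fin (2 * k) → ZMod m | IsTate (univ.val.map a)} =
        {a : Fin (2 * k) → ZMod m | MP_938ce2_ag_h6.IsTate (univ.val.map a)} := by
      ext a
      exact isTate_iff _
    rw [h1]
    exact MP_938ce2_ag_h1Z.lowerZ k

end Pool.Agent.Results.MP_938ce2_ag.EveryFermat
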