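import Mathlib
import Pool.Agent.Lib.MP_938ce2_ag_h99x.Final7
import Pool.Agent.Lib.MP_938ce2_ag_h99.Final4
import Pool.Agent.Lib.MP_938ce2_ag_h7s.LiftAlg
import Pool.Agent.Lib.MP_938ce2_ag_h6.Frobenius

/-!
# Tate classes on Fermat varieties of all dimensions: only pairs of primes matter

The primitive cohomology `H^n` of the Fermat variety of degree `m` and even dimension `n` is the
direct sum of lines `V(s)`, where `s` runs over the families of `n + 2` nonzero residues modulo `m`
with sum zero.  By Weil the Frobenius at a prime of `ℚ(μ_m)` of degree one above `p` acts on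
`V(s)`, up to sign, as `p⁻¹ ∏ g(χ ^ a, ψ)`, where `χ` is a character of order `m` modulo `p`; so
`V(s)(n / 2)` consists of Tate classes iff `IsTate s`.  `IsAlg` collects the characters whose lines
are spanned by algebraic classes by geometric constructions (`e = false`: published ones).  The
pull-back of `V(s)` to the Fermat variety of degree `k m` is `V(lift s)`.
-/

set_option autoImplicit false

open Finset

namespace Pool.Agent.Results.MP_938ce2_ag.FermatAllDimensions

/-- The Tate condition, in terms of Frobenius eigenvalues: some power of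
`∏ g(χ ^ a, ψ) / p ^ (l / 2)`, the product over the `l` elements `a` of `s`, is one, for all `p`,
`χ`, `ψ`. -/
def IsTate {m : ℕ} (s : Multiset (ZMod m)) : Prop :=
  (0 : ZMod m) ∉ s ∧ s.sum = 0 ∧
    ∀ (p : ℕ) [Fact p.Prime] (χ : MulChar (ZMod p) ℂ) (ψ : AddChar (ZMod p) ℂ),
      orderOf χ = m → ψ ≠ 1 → ∃ k, 0 < k ∧
        (s.map fun a => gaussSum (χ ^ a.val) ψ).prod ^ (2 * k) = (p : ℂ) ^ (s.card * k)

/-- `s` is a character of a product of `k ≤ 2` Fermat varieties of total dimension four, one for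
each zero-sum block, whose quotient by the kernel of `s` is dominated by the Delsarte complete
intersection `∑_{g i = b} ∏_j X_j ^ μ j i = 0` (`b < k`) in the weighted projective space with
weights `c`, of degrees `d b` with `∑ d b < ∑ c j`; so this quotient is a uniruled fourfold. -/
def Fano {m : ℕ} (s : Multiset (ZMod m)) : Prop :=
  ∃ (k : ℕ) (a : Fin (2 * k + 4) → ZMod m) (g : Fin (2 * k + 4) → Fin k)
    (μ : Fin (k + 5) → Fin (2 * k + 4) → ℕ) (c : Fin (k + 5) → ℕ) (d : Fin k → ℕ),
    k ≤ 2 ∧ s = univ.val.map a ∧ Function.Surjective g ∧ (∀ b, ∑ i with g i = b, a i = 0) ∧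
    (∀ j, ∑ i, μ j i * a i = 0) ∧ (∀ j, 0 < c j) ∧ (∀ i, ∑ j, c j * μ j i = d (g i)) ∧
    ∑ b, d b < ∑ j, c j ∧
    ∀ u : Fin (k + 5) → ℤ, (∀ i i', g i = g i' → ∑ j, u j * μ j i = ∑ j, u j * μ j i') →
      ∀ j j', c j * u j' = c j' * u j

open Classical in
/-- `s` is a sum of sets `{c + j m / D : (j / p) = ε p for all primes p ∣ D}`, where `4 c = 0` and
`D ∣ m` is odd and squarefree.  These are the exponents at infinity of tensor products of odd and
even parts of the Weil representations modulo `p`, `p ∣ D`, twisted by characters of the modular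
group. -/
def Theta {m : ℕ} [NeZero m] (s : Multiset (ZMod m)) : Prop :=
  s ∈ AddSubmonoid.closure {t | ∃ (c : ZMod m) (D : ℕ) (ε : ℕ → ℤˣ), 4 * c = 0 ∧ D ∣ m ∧
    Squarefree D ∧ Odd D ∧
    t = (univ.filter fun x : ZMod m => ∃ j : ℕ, x = c + (m / D * j : ℕ) ∧
      ∀ p, p.Prime → p ∣ D → jacobiSym j p = ε p).val}

/-- Characters of algebraic cycles: `low`, cycles on Fermat surfaces (and curves, points); `aoki`,
the cycles of Aoki attached to an odd prime `p` dividing `m`; `fano`, uniruled fourfolds; `theta`,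
only for `e = true`, determinants of local systems on the `j`-line; `join` and `cut`, the inductive
structure of Shioda and Katsura. -/
inductive IsAlg {m : ℕ} [NeZero m] (e : Bool) : Multiset (ZMod m) → Prop
  | low (s : Multiset (ZMod m)) : IsTate s → s.card ≤ 4 → IsAlg e s
  | fano (s : Multiset (ZMod m)) : IsTate s → Fano s → IsAlg e s
  | theta (s : Multiset (ZMod m)) : e = true → IsTate s → Theta s → IsAlg e s
  | aoki (p : ℕ) (a : ZMod m) : p.Prime → p ≠ 2 → p ∣ m → (p : ZMod m) * a ≠ 0 →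
      IsAlg e ((univ.filter fun x : ZMod m => (p : ZMod m) * x = (p : ZMod m) * a).val
        + {-((p : ZMod m) * a)})
  | join (s t : Multiset (ZMod m)) : IsAlg e s → IsAlg e t → IsAlg e (s + t)
  | cut (s : Multiset (ZMod m)) (b : ZMod m) : b ≠ 0 → IsAlg e (s + {b, -b}) → IsAlg e s

/-- The character of degree `M` obtained from one of degree `m`, for `m ∣ M`. -/
def lift (M : ℕ) {m : ℕ} (s : Multiset (ZMod m)) : Multiset (ZMod M) :=
  s.map fun a => ((M / m * a.val : ℕ) : ZMod M)

open Pool.Agent.Lib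

lemma isTate_iff {m : ℕ} [NeZero m] (s : Multiset (ZMod m)) :
    IsTate s ↔ MP_938ce2_ag_h6.IsTate s :=
  MP_938ce2_ag_h6.Frob.frobTate_iff s

lemma theta_of {m : ℕ} [NeZero m] {s : Multiset (ZMod m)} (h : MP_938ce2_ag_h99v.Theta1 s) :
    Theta s := by
  unfold MP_938ce2_ag_h99v.Theta1 at h
  unfold Theta
  refine AddSubmonoid.closure_mono ?_ h
  rintro _ ⟨c, D, ε, ⟨h1, h2, h3, h4⟩, rfl⟩
  refine ⟨c, D, ε, h1, h2, h3, ?_, rfl⟩
  rw [← Nat.not_even_iff_odd, even_iff_two_dvd]
  exact fun h => h4 2 Nat.prime_two h rfl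

lemma toAlg {m : ℕ} [NeZero m] {s : Multiset (ZMod m)}
    (h : MP_938ce2_ag_h99.IsAlgG MP_938ce2_ag_h99v.GT1 s) : IsAlg true s := by
  induction h with
  | low s h1 h2 => exact IsAlg.low s ((isTate_iff s).mpr h1) h2
  | base s h1 h2 =>
    rcases h2 with h2 | h2
    · exact IsAlg.fano s ((isTate_iff s).mpr h1) h2
    · exact IsAlg.theta s rfl ((isTate_iff s).mpr h1) (theta_of h2)
  | aoki p a h1 h2 h3 h4 => exact IsAlg.aoki p a h1 h2 h3 h4
  | join s t _ _ h1 h2 => exact IsAlg.join s t h1 h2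
  | cut s b h1 _ h2 => exact IsAlg.cut s b h1 h2

lemma toAlgF {m : ℕ} [NeZero m] {s : Multiset (ZMod m)}
    (h : MP_938ce2_ag_h99.IsAlgG MP_938ce2_ag_h99.Fano s) : IsAlg false s := by
  induction h with
  | low s h1 h2 => exact IsAlg.low s ((isTate_iff s).mpr h1) h2
  | base s h1 h2 => exact IsAlg.fano s ((isTate_iff s).mpr h1) h2
  | aoki p a h1 h2 h3 h4 => exact IsAlg.aoki p a h1 h2 h3 h4
  | join s t _ _ h1 h2 => exact IsAlg.join s t h1 h2
  | cut s b h1 _ h2 => exact IsAlg.cut s b h1 h2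

lemma lift_eq {m M : ℕ} [NeZero m] (h : m ∣ M) (s : Multiset (ZMod m)) :
    lift M s = s.map (MP_938ce2_ag_h99.jj h) := by
  unfold lift
  apply Multiset.map_congr rfl
  intro a _
  rw [← MP_938ce2_ag_h99.jj_natCast h, ZMod.natCast_zmod_val]

/-- Effective primes of `m`: the odd primes dividing `m`, and `2` if `4` divides `m`. -/
def Eff (m p : ℕ) : Prop := p.Prime ∧ p ∣ m ∧ (p = 2 → 4 ∣ m)

/-- Good pairs `p < q`: neither prime is `1` modulo `4`, or `p` is a square modulo `q`. -/
def Good (p q : ℕ) : Prop := p % 4 ≠ 1 ∧ q % 4 ≠ 1 ∨ jacobiSym p q = 1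

/-- Mild primes. -/
def Mild (p : ℕ) : Prop := p % 4 ≠ 1 ∨ p = 5 ∨ p = 13 ∨ p = 17

open Classical in
/-- At most three effective primes of `m` are `≤ l + 1`. -/
def Few (m l : ℕ) : Prop := ((range (l + 2)).filter (Eff m)).card ≤ 3

/-- `p < q` are effective primes of `m` with `q ≤ 2 l + 1` (`q ≤ 4 l + 1` if `p = 3`). -/
def Pair (m l p q : ℕ) : Prop :=
  p < q ∧ Eff m p ∧ Eff m q ∧ q ≤ (if p = 3 then 4 else 2) * l + 1

lemma good_ch {p q : ℕ} (hp : p.Prime) (hq : q.Prime) (hpq : p < q) (h : Good p q) :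
    (p % 4 = 1 → MP_938ce2_ag_h99t.ch p q = 1) ∧ (q % 4 = 1 → MP_938ce2_ag_h99t.ch q p = 1) := by
  have hq2 : q ≠ 2 := by
    have := hp.two_le
    omega
  have hqo : q % 2 = 1 := hq.eq_two_or_odd.resolve_left hq2
  constructor
  · intro h4
    have hp2 : p ≠ 2 := by
      rintro rfl
      omega
    rcases h with h | h
    · exact absurd h4 h.1
    · unfold MP_938ce2_ag_h99t.ch
      rw [if_neg hp2, ← h]
      exact jacobiSym.quadratic_reciprocity_one_mod_four' (Nat.odd_iff.mpr hqo) h4
  · intro h4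
    rcases h with h | h
    · exact absurd h4 h.2
    · unfold MP_938ce2_ag_h99t.ch
      rw [if_neg hq2]
      exact h

/-- the published geometry, in all degrees divisible by `2 m` -/
lemma part_false (m M : ℕ) [NeZero m] [NeZero M] (hM : 2 * m ∣ M) (s : Multiset (ZMod m))
    (hs : IsTate s) (h : ∀ p q, Pair m s.card p q → p ≤ 3 ∧ q ≤ 13) :
    IsAlg false (lift M s) := by
  have hm' : m ∣ 2 * m := Dvd.intro_left _ rfl
  have : NeZero (2 * m) := ⟨mul_ne_zero (by norm_num) (NeZero.ne m)⟩
  have hm : m ∣ M := hm'.trans hM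
  have hs' := (isTate_iff s).mp hs
  by_cases h4 : s.card ≤ 4
  · rw [lift_eq hm]
    exact IsAlg.low _ ((isTate_iff _).mpr (hs'.lift hm)) (by rwa [Multiset.card_map])
  have h420 : ¬ 420 ∣ m := by
    intro h420
    have h5 : Eff m 5 := ⟨by norm_num, dvd_trans (by norm_num) h420, by norm_num⟩
    have h7 : Eff m 7 := ⟨by norm_num, dvd_trans (by norm_num) h420, by norm_num⟩
    have := (h 5 7 ⟨by norm_num, h5, h7, by split_ifs <;> omega⟩).1
    omega
  have h1 := MP_938ce2_ag_h99.tate_alg4 hm' h420 hs' (by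
    intro p q hlt hp hq
    by_cases hle : q ≤ (if p = 3 then 4 else 2) * s.card + 1
    · left
      have h1 := h p q ⟨hlt, hp, hq, hle⟩
      have h2 := hp.1.two_le
      unfold MP_938ce2_ag_h99.Tin
      omega
    · right
      split_ifs at hle ⊢ <;> omega)
  have h2 := MP_938ce2_ag_h7s.IsAlgG.lift (G' := MP_938ce2_ag_h99.Fano) hM
    (fun s hs => MP_938ce2_ag_h7s.Fano.lift hM hs) h1
  have e : (s.map (MP_938ce2_ag_h99.jj hm')).map (MP_938ce2_ag_h99.jj hM)
      = s.map (MP_938ce2_ag_h99.jj hm) := by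
    rw [Multiset.map_map]
    apply Multiset.map_congr rfl
    intro a _
    rw [Function.comp_apply]
    conv_lhs => rw [← ZMod.natCast_zmod_val a]
    conv_rhs => rw [← ZMod.natCast_zmod_val a]
    rw [MP_938ce2_ag_h99.jj_natCast, MP_938ce2_ag_h99.jj_natCast, MP_938ce2_ag_h99.jj_natCast]
    congr 1
    obtain ⟨c, hc⟩ := hM
    have hm0 : 0 < m := Nat.pos_of_ne_zero (NeZero.ne m)
    have e1 : M / (2 * m) = c := by
      rw [hc, Nat.mul_div_cancel_left _ (by positivity)]
    have e2 : 2 * m / m = 2 := Nat.mul_div_cancel _ hm0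
    have e3 : M / m = 2 * c := by
      rw [hc, show 2 * m * c = m * (2 * c) by ring, Nat.mul_div_cancel_left _ hm0]
    rw [e1, e2, e3]
    ring
  rw [lift_eq hm, ← e]
  exact toAlgF h2

/-- Let `s` be a Tate multiset of length `l` modulo `m`.  In all degrees divisible by some multiple
`N` of `m` it becomes algebraic
* with published geometry only (`e = false`), if `p ≤ 3` and `q ≤ 13` for any two effective
  primes `p < q` of `m` with `q ≤ 2 l + 1` (`q ≤ 4 l + 1` if `p = 3`);
* with `e = true`, if any two such primes form a good pair (or are both mild, if at most three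
  effective primes are `≤ l + 1`).  In particular, if all pairs of effective primes of `m` are good,
  this holds for all Tate multisets modulo `m`, of any length. -/
theorem result (m : ℕ) [NeZero m] : ∃ N ≠ 0, m ∣ N ∧ ∀ (M : ℕ) [NeZero M], N ∣ M →
    ∀ s : Multiset (ZMod m), IsTate s →
      ((∀ p q, Pair m s.card p q → p ≤ 3 ∧ q ≤ 13) → IsAlg false (lift M s)) ∧
      ((∀ p q, Pair m s.card p q → Good p q ∨ Mild p ∧ Mild q ∧ Few m s.card) →
        IsAlg true (lift M s)) := by
  classical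
  obtain ⟨N, hN, hmN, h⟩ := MP_938ce2_ag_h99x.tate_gen m
  refine ⟨2 * N, by omega, Dvd.dvd.mul_left hmN 2, ?_⟩
  intro M _ hM s hs
  have hNM : N ∣ M := (Dvd.intro_left 2 rfl).trans hM
  refine ⟨fun ht => part_false m M ((Nat.mul_dvd_mul_left 2 hmN).trans hM) s hs ht, ?_⟩
  intro hpq
  rw [lift_eq (hmN.trans hNM)]
  refine toAlg (h M hNM (hmN.trans hNM) s ((isTate_iff s).mp hs) ?_ ?_)
  · by_cases hF : Few m s.card
    · right
      refine le_trans (card_le_card ?_) hF
      intro p hp
      unfold MP_938ce2_ag_h99v.effs at hp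
      rw [mem_filter, mem_range] at hp ⊢
      exact ⟨by omega, hp.2⟩
    · left
      intro p hp h4 x hx hxp
      unfold MP_938ce2_ag_h99v.effs at hp hx
      rw [mem_filter, mem_range] at hp hx
      obtain ⟨hp1, hp2⟩ := hp
      obtain ⟨hx1, hx2⟩ := hx
      have key : ∀ a b, a < b → b < s.card + 1 + 1 → Eff m a → Eff m b → Good a b := by
        intro a b hab hb ha hb'
        rcases hpq a b ⟨hab, ha, hb', by split_ifs <;> omega⟩ with h1 | h1
        · exact h1
        · exact absurd h1.2.2 hF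
      rcases lt_or_gt_of_ne hxp with hlt | hlt
      · exact (good_ch hx2.1 hp2.1 hlt (key x p hlt hp1 hx2 hp2)).2 h4
      · exact (good_ch hp2.1 hx2.1 hlt (key p x hlt hx1 hp2 hx2)).1 h4
  · intro p q hlt hp hq
    by_cases hle : q ≤ (if p = 3 then 4 else 2) * s.card + 1
    · left
      rcases hpq p q ⟨hlt, hp, hq, hle⟩ with h1 | ⟨h1, h2, _⟩
      · rcases h1 with h1 | h1
        · exact Or.inl h1
        · exact Or.inr (Or.inr (Or.inl h1))
      · exact Or.inr (Or.inr (Or.inr ⟨h1, h2⟩))
    · right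
      split_ifs at hle ⊢ <;> omega

end Pool.Agent.Results.MP_938ce2_ag.FermatAllDimensions
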