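import Mathlib

/-!
# Surfaces with a homology and the Hodge pieces of their second cohomology

`S` is a quasi-smooth surface of degree `d` in the weighted projective space `P(1,1,1,w)` with
coordinates `x₀, x₁, x₂, z`, invariant under `z ↦ ζ z`, `ζ` a primitive `m`-th root of unity. The
residues of `x₀^a₀ x₁^a₁ x₂^a₂ z^b Ω / F` with `a₀ + a₁ + a₂ + w b = d - 3 - w` are a basis of
`H^{2,0}(S)`, and this one is multiplied by `ζ^(b+1)`.
-/

set_option autoImplicit false

namespace Pool.Agent.Lib.MP_938ce2_parked.Homologies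

/-- The monomials `x₀^a₀ x₁^a₁ x₂^a₂ z^b` of degree `d - 3 - w` (`z` has degree `w`) such that
`b + 1` has the residue `r` modulo `m`. -/
def mons (w d m r : ℕ) : Finset (ℕ × ℕ × ℕ × ℕ) :=
  (Finset.range d ×ˢ Finset.range d ×ˢ Finset.range d ×ˢ Finset.range d).filter
    fun a => a.1 + a.2.1 + a.2.2.1 + w * a.2.2.2 + w + 3 = d ∧ (a.2.2.2 + 1) % m = r

/-- The dimension of the piece of `H^{2,0}(S)` on which the automorphism is `ζ^r`. -/
def h20 (w d m r : ℕ) : ℕ := (mons w d m r).card

/-- The geometric genus of `S`. -/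
def pg (w d : ℕ) : ℕ := h20 w d 1 0

/-- `H^{2,0}(S)` is chiral for the group `μ_m`: a character which is not its own conjugate does not
occur together with its conjugate, and a character which is its own conjugate occurs at most
once. -/
def IsChiral (w d m : ℕ) : Prop :=
  ∀ r < m, ∀ s < m, (r + s) % m = 0 →
    if r = s then h20 w d m r ≤ 1 else h20 w d m r = 0 ∨ h20 w d m s = 0

lemma mem_mons {w d m r : ℕ} {a : ℕ × ℕ × ℕ × ℕ} (hw : 1 ≤ w) :
    a ∈ mons w d m r ↔
      a.1 + a.2.1 + a.2.2.1 + w * a.2.2.2 + w + 3 = d ∧ (a.2.2.2 + 1) % m = r := by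
  unfold mons
  simp only [Finset.mem_filter, Finset.mem_product, Finset.mem_range]
  constructor
  · exact fun h => h.2
  · rintro ⟨h1, h2⟩
    have h3 : a.2.2.2 ≤ w * a.2.2.2 := Nat.le_mul_of_pos_left _ (by omega)
    exact ⟨⟨by omega, by omega, by omega, by omega⟩, h1, h2⟩

lemma h20_ne {w d m r : ℕ} (hw : 1 ≤ w) (b : ℕ) (hr : (b + 1) % m = r) (h : w * b + w + 3 ≤ d) :
    h20 w d m r ≠ 0 := by
  unfold h20
  rw [Finset.card_ne_zero]
  refine ⟨(d - (w * b + w + 3), 0, 0, b), (mem_mons hw).mpr ⟨?_, hr⟩⟩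
  show d - (w * b + w + 3) + 0 + 0 + w * b + w + 3 = d
  omega

lemma h20_two {w d m r : ℕ} (hw : 1 ≤ w) (b : ℕ) (hr : (b + 1) % m = r) (h : w * b + w + 4 ≤ d) :
    2 ≤ h20 w d m r := by
  unfold h20
  have h1 : ((d - (w * b + w + 3), 0, 0, b) : ℕ × ℕ × ℕ × ℕ) ∈ mons w d m r := by
    refine (mem_mons hw).mpr ⟨?_, hr⟩
    show d - (w * b + w + 3) + 0 + 0 + w * b + w + 3 = d
    omega
  have h2 : ((0, d - (w * b + w + 3), 0, b) : ℕ × ℕ × ℕ × ℕ) ∈ mons w d m r := by
    refine (mem_mons hw).mpr ⟨?_, hr⟩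
    show 0 + (d - (w * b + w + 3)) + 0 + w * b + w + 3 = d
    omega
  refine Finset.one_lt_card.mpr ⟨_, h1, _, h2, fun he => ?_⟩
  have := congrArg Prod.fst he
  simp only at this
  omega

/-- Let `S` be a quasi-smooth surface of degree `d` in `P(1,1,1,w)`, invariant under `z ↦ ζ_m z`,
`m ≥ 2` (quasi-smooth: the equation contains `z^k` or `z^k x_i`, so `d = w k` or `d = w k + 1`, and
`m` divides `k`), of geometric genus at least 2. Then `H^{2,0}(S)` is chiral if and only if
`(w,d,m)` is `(1,5,4)`, `(1,5,5)`, `(1,6,6)` or `(2,6,3)`. -/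
theorem result (w d m k : ℕ) (hw : 1 ≤ w) (hk : 1 ≤ k) (hm : 2 ≤ m) (hmk : m ∣ k)
    (hd : d = w * k ∨ d = w * k + 1) (hpg : 2 ≤ pg w d) :
    IsChiral w d m ↔
      (w = 1 ∧ d = 5 ∧ m = 4) ∨ (w = 1 ∧ d = 5 ∧ m = 5) ∨ (w = 1 ∧ d = 6 ∧ m = 6) ∨
        (w = 2 ∧ d = 6 ∧ m = 3) := by
  constructor
  · intro hch
    -- the degree `d - 3 - w` is positive
    have hD : w + 4 ≤ d := by
      obtain ⟨a, ha, b, hb, hab⟩ := Finset.one_lt_card.mp hpg
      by_contra hlt
      have h1 := ((mem_mons hw).mp ha).1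
      have h2 := ((mem_mons hw).mp hb).1
      obtain ⟨a0, a1, a2, a3⟩ := a
      obtain ⟨b0, b1, b2, b3⟩ := b
      simp only at h1 h2
      have h3 : a3 ≤ w * a3 := Nat.le_mul_of_pos_left _ (by omega)
      have h4 : b3 ≤ w * b3 := Nat.le_mul_of_pos_left _ (by omega)
      apply hab
      simp only [Prod.mk.injEq]
      omega
    -- `m ≥ 3`
    have hm3 : 3 ≤ m := by
      by_contra hlt
      have hm2 : m = 2 := by omega
      subst hm2
      have h1 := hch 1 (by norm_num) 1 (by norm_num) (by norm_num)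
      rw [if_pos rfl] at h1
      have h2 := h20_two (w := w) (d := d) (m := 2) (r := 1) hw 0 (by norm_num) (by omega)
      omega
    -- the pair `1, m - 1`
    have hA : d < w * (m - 2) + w + 3 := by
      by_contra hge
      have h1 := hch 1 (by omega) (m - 1) (by omega) (by
        rw [show 1 + (m - 1) = m by omega, Nat.mod_self])
      rw [if_neg (by omega)] at h1
      rcases h1 with h1 | h1
      · exact h20_ne hw 0 (Nat.mod_eq_of_lt (by omega)) (by omega) h1
      · exact h20_ne hw (m - 2) (by rw [Nat.mod_eq_of_lt (by omega)]; omega) (by omega) h1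
    -- `k = m`
    obtain ⟨t, rfl⟩ := hmk
    have ht : t = 1 := by
      by_contra hne
      have ht2 : 2 ≤ t := by
        rcases Nat.eq_zero_or_pos t with h | h
        · subst h; omega
        · omega
      have h1 : w * (m * 2) ≤ w * (m * t) := Nat.mul_le_mul_left _ (Nat.mul_le_mul_left _ ht2)
      have h2 : w * (m * 2) ≤ d := by rcases hd with h | h <;> omega
      have h3 : w * (m - 2) + w + 3 ≤ w * (m * 2) := by
        obtain ⟨m', rfl⟩ : ∃ m', m = m' + 3 := ⟨m - 3, by omega⟩
        rw [show m' + 3 - 2 = m' + 1 by omega]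
        nlinarith [Nat.zero_le (w * m')]
      omega
    subst ht
    rw [mul_one] at hd
    -- three cases
    have hB : w * (m - 2) + 2 * w = w * m := by
      obtain ⟨m', rfl⟩ : ∃ m', m = m' + 3 := ⟨m - 3, by omega⟩
      rw [show m' + 3 - 2 = m' + 1 by omega]
      ring
    -- the pair `r, m - r`
    have hpair : ∀ b c : ℕ, b + c + 2 = m → b < c → w * c + w + 3 ≤ d → False := by
      intro b c hbc hlt hle
      have h1 := hch (b + 1) (by omega) (c + 1) (by omega) (by
        rw [show b + 1 + (c + 1) = m by omega, Nat.mod_self])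
      rw [if_neg (by omega)] at h1
      have hle' : w * b ≤ w * c := Nat.mul_le_mul_left _ hlt.le
      rcases h1 with h1 | h1
      · exact h20_ne hw b (Nat.mod_eq_of_lt (by omega)) (by omega) h1
      · exact h20_ne hw c (Nat.mod_eq_of_lt (by omega)) (by omega) h1
    rcases hd with hd | hd
    · have hw2 : w = 1 ∨ w = 2 := by omega
      rcases hw2 with rfl | rfl
      · have h7 : m < 7 := by
          by_contra hge
          exact hpair 2 (m - 4) (by omega) (by omega) (by omega)
        omega
      · have h5 : m < 5 := by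
          by_contra hge
          exact hpair 1 (m - 3) (by omega) (by omega) (by omega)
        have h4 : m ≠ 4 := by
          rintro rfl
          have h1 := hch 2 (by norm_num) 2 (by norm_num) (by norm_num)
          rw [if_pos rfl] at h1
          have h2 := h20_two (w := 2) (d := d) (m := 4) (r := 2) (by norm_num) 1 (by norm_num)
            (by omega)
          omega
        omega
    · have hw1 : w = 1 := by omega
      subst hw1
      have h5 : m < 5 := by
        by_contra hge
        exact hpair 1 (m - 3) (by omega) (by omega) (by omega)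
      omega
  · rintro (⟨rfl, rfl, rfl⟩ | ⟨rfl, rfl, rfl⟩ | ⟨rfl, rfl, rfl⟩ | ⟨rfl, rfl, rfl⟩)
    · unfold IsChiral; decide +kernel
    · unfold IsChiral; decide +kernel
    · unfold IsChiral; decide +kernel
    · unfold IsChiral; decide +kernel

end Pool.Agent.Lib.MP_938ce2_parked.Homologies
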