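import Mathlib
import Pool.Agent.Lib.MP_938ce2_ag_rr.Final

/-!
For almost all CM types of every CM field of degree `2 g` the Tate classes of codimension at most `κ g` on
all powers of the abelian varieties of this type are generated by divisor classes, `κ` absolute.
-/

set_option autoImplicit false

namespace Pool.Agent.Results.MP_938ce2_ag.LinearCodimension

open Module NumberField
open Pool.Agent.Lib.MP_938ce2_ag_h60 (CMType conj)
open Pool.Agent.Lib.MP_938ce2_ag_h65 (GeneratedUpTo)

/-- `L` is a Galois CM field into which the CM field `E` of degree `2 g` embeds, for instance the Galois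
closure of `E`. The `2 ^ g` CM types of `E` contain one embedding of each pair of complex conjugate ones. -/
theorem result :
    ∃ κ : ℝ, 0 < κ ∧ ∀ η : ℝ, 0 < η → ∃ g₀ : ℕ, ∀ (L E : Type) [Field L] [NumberField L]
      [IsGalois ℚ L] [IsCMField L] [Field E] [NumberField E] [IsCMField E]
      [Nonempty (E →ₐ[ℚ] L)] (g J : ℕ), finrank ℚ E = 2 * g → g₀ ≤ g → (J : ℝ) ≤ κ * g →
      ({Φ : Finset (E →ₐ[ℚ] L) |
        CMType (conj L) Φ ∧ ¬ GeneratedUpTo (L ≃ₐ[ℚ] L) J Φ}.ncard : ℝ) ≤ η * 2 ^ g :=
  Pool.Agent.Lib.MP_938ce2_ag_rr.linear_codimension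

end Pool.Agent.Results.MP_938ce2_ag.LinearCodimension
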