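import Mathlib
import Pool.Agent.Lib.MP_938ce2_ag_u4.Final4

/-!
Most abelian varieties with complex multiplication by a CM field `E` of degree `2g`: the Tate classes
on all their powers are generated by divisor classes, except for a proportion of the `2 ^ g` CM types
of `E` which is bounded in terms of the absolutely irreducible representations over `ℚ` of the Galois
group of the largest Galois subfield of `E` and of the CM subfields of `E` of bounded degree.
-/

set_option autoImplicit false

namespace Pool.Agent.Results.MP_938ce2_ag.MostTypesEveryField

open Module NumberField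
open Pool.Agent.Lib.MP_938ce2_ag_h60 (CMType GeneratedByDivisors conj)
open Pool.Agent.Lib.MP_938ce2_ag_u4 (HasCharacters HasSmallFields)

/-- `L` is a Galois CM field which contains a conjugate of the CM field `E` of degree `2g`, for
instance the Galois closure of `E`. The field `E` has `2 ^ g` CM types, each consists of one embedding
of each pair of complex conjugate ones. The set `R` contains the characters `χ` of the absolutely
irreducible representations over `ℚ` of the Galois group of the largest subfield of `E` which is
Galois over `ℚ`, with complex conjugation acting as `-1`; `χ 1` is the degree. The set `t` contains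
the CM subfields `F` of `E` of degree at most `B` with Galois closure of degree at most `2 [F : ℚ]`
and `[F : ℚ] / 2` not prime to `6`. -/
theorem result : ∃ C : ℝ, ∀ η : ℝ, 0 < η → ∃ B g₀ : ℕ, ∀ (L E : Type) [Field L] [NumberField L]
      [IsGalois ℚ L] [IsCMField L] [Field E] [NumberField E] [IsCMField E] [Nonempty (E →ₐ[ℚ] L)]
      (g : ℕ), finrank ℚ E = 2 * g → g₀ ≤ g →
      ∀ (R : Finset ((L ≃ₐ[ℚ] L) → ℚ)) (t : Finset (IntermediateField ℚ E)),
      HasCharacters L E R → HasSmallFields L E B t →
      (Nat.card {Φ : Finset (E →ₐ[ℚ] L) //
          CMType (conj L) Φ ∧ ¬ GeneratedByDivisors (L ≃ₐ[ℚ] L) Φ} : ℝ)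
        ≤ (η + C * ∑ χ ∈ R, √((χ 1 : ℚ) * (1 + Real.log (χ 1 : ℚ)) / g) + B * t.card / g)
          * 2 ^ g :=
  Pool.Agent.Lib.MP_938ce2_ag_u4.theoremU4

end Pool.Agent.Results.MP_938ce2_ag.MostTypesEveryField
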