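import Mathlib

/-!
# Covers of the plane and the Hodge pieces of their second cohomology

(1) Let `S` be the smooth projective model of `z ^ m = f(x, y)`, where `f` is a general polynomial
in the monomials `x ^ i y ^ j` with `i α + j β ≤ 1`, the weights `α`, `β` being those of a
quasi-homogeneous polynomial with an isolated singularity, for example `α = 1 / p`, `β = 1 / q`.
The holomorphic 2-forms on `S` are spanned by the `x ^ i y ^ j dx dy / z ^ k` with `0 < k < m` and
`(i + 1) α + (j + 1) β < k / m`.

(2) Let `S` be an abelian cover of the projective plane, branched in general curves of degrees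
`d i`. A character of the group is given by its exponents `0 ≤ α i < 1` with integral
`∑ i, d i * α i`, and this piece of `H^{2,0}(S)` is `H^0(ℙ², O(∑ i, d i * α i - 3))`.
-/

set_option autoImplicit false

namespace Pool.Agent.Lib.MP_938ce2_parked.PlaneCovers

/-- The `(i, j)` for which `x ^ i y ^ j dx dy / z ^ k` is a holomorphic 2-form on the smooth model
of `z ^ m = f(x, y)`, if the weights of `x` and `y` are `α` and `β`. -/
def forms (α β : ℚ) (m k : ℕ) : Set (ℕ × ℕ) :=
  {a | (a.1 + 1) * α + (a.2 + 1) * β < (k : ℚ) / m}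

/-- Their number. -/
noncomputable def h20 (α β : ℚ) (m k : ℕ) : ℕ∞ := (forms α β m k).encard

/-- `H^{2,0}` is chiral: a character which is not its own conjugate does not occur together with
its conjugate, and a character which is its own conjugate occurs at most once. -/
def IsChiral (α β : ℚ) (m : ℕ) : Prop :=
  ∀ k l : ℕ, 0 < k → 0 < l → k + l = m →
    (k = l → h20 α β m k ≤ 1) ∧ (k ≠ l → h20 α β m k = 0 ∨ h20 α β m l = 0)

section

variable {ι : Type} [Fintype ι]

/-- The degree of the character with exponents `α`. -/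
def level (d : ι → ℕ) (α : ι → ℚ) : ℚ := ∑ i, (d i : ℚ) * α i

/-- The exponents of the conjugate character. -/
def bar (α : ι → ℚ) : ι → ℚ := fun i => if α i = 0 then 0 else 1 - α i

/-- `α` is the family of exponents of a character. -/
def IsChar (d : ι → ℕ) (α : ι → ℚ) : Prop :=
  (∀ i, 0 ≤ α i ∧ α i < 1) ∧ ∃ n : ℕ, level d α = n

/-- The dimension of `H^0(ℙ², O(level d α - 3))`: the number of monomials `x ^ i y ^ j` with
`i + j + 3 ≤ level d α`. -/
def h20Ab (d : ι → ℕ) (α : ι → ℚ) : ℕ :=
  ((Finset.range (∑ i, d i) ×ˢ Finset.range (∑ i, d i)).filter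
    fun a => (a.1 : ℚ) + a.2 + 3 ≤ level d α).card

/-- `H^{2,0}` is chiral for every abelian cover which is branched in curves of degrees `d i`. -/
def IsChiralAb (d : ι → ℕ) : Prop :=
  ∀ α : ι → ℚ, IsChar d α →
    (bar α = α → h20Ab d α ≤ 1) ∧ (bar α ≠ α → h20Ab d α = 0 ∨ h20Ab d (bar α) = 0)

end

/-! ## Surfaces `z ^ m = f(x, y)` -/

lemma h20_zero_iff {α β : ℚ} (hα : 0 < α) (hβ : 0 < β) {m k : ℕ} :
    h20 α β m k = 0 ↔ (k : ℚ) / m ≤ α + β := by
  unfold h20
  rw [Set.encard_eq_zero, Set.eq_empty_iff_forall_notMem]
  constructor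
  · intro h
    have h1 := h (0, 0)
    simp only [forms, Set.mem_ofPred_eq, Nat.cast_zero, zero_add, one_mul, not_lt] at h1
    exact h1
  · rintro h ⟨i, j⟩ ha
    simp only [forms, Set.mem_ofPred_eq] at ha
    have h1 : (0 : ℚ) ≤ i * α := by positivity
    have h2 : (0 : ℚ) ≤ j * β := by positivity
    linarith

lemma h20_le_one_iff {α β : ℚ} (hα : 0 < α) (hβ : 0 < β) {m k : ℕ} :
    h20 α β m k ≤ 1 ↔ (k : ℚ) / m ≤ 2 * α + β ∧ (k : ℚ) / m ≤ α + 2 * β := by
  unfold h20
  rw [Set.encard_le_one_iff]
  constructor
  · intro h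
    constructor
    · by_contra hlt
      rw [not_le] at hlt
      have h1 : ((0, 0) : ℕ × ℕ) ∈ forms α β m k := by
        simp only [forms, Set.mem_ofPred_eq, Nat.cast_zero]
        linarith
      have h2 : ((1, 0) : ℕ × ℕ) ∈ forms α β m k := by
        simp only [forms, Set.mem_ofPred_eq, Nat.cast_zero, Nat.cast_one]
        linarith
      exact absurd (congrArg Prod.fst (h _ _ h1 h2)) (by norm_num)
    · by_contra hlt
      rw [not_le] at hlt
      have h1 : ((0, 0) : ℕ × ℕ) ∈ forms α β m k := by
        simp only [forms, Set.mem_ofPred_eq, Nat.cast_zero]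
        linarith
      have h2 : ((0, 1) : ℕ × ℕ) ∈ forms α β m k := by
        simp only [forms, Set.mem_ofPred_eq, Nat.cast_zero, Nat.cast_one]
        linarith
      exact absurd (congrArg Prod.snd (h _ _ h1 h2)) (by norm_num)
  · rintro ⟨h1, h2⟩
    have key : ∀ a ∈ forms α β m k, a = (0, 0) := by
      rintro ⟨i, j⟩ ha
      simp only [forms, Set.mem_ofPred_eq] at ha
      have h3 : (0 : ℚ) ≤ i * α := by positivity
      have h4 : (0 : ℚ) ≤ j * β := by positivity
      have h5 : i = 0 := by
        by_contra h0
        have h6 : (1 : ℚ) ≤ i := by exact_mod_cast Nat.one_le_iff_ne_zero.mpr h0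
        have h7 : α ≤ i * α := le_mul_of_one_le_left hα.le h6
        linarith
      have h6 : j = 0 := by
        by_contra h0
        have h6 : (1 : ℚ) ≤ j := by exact_mod_cast Nat.one_le_iff_ne_zero.mpr h0
        have h7 : β ≤ j * β := le_mul_of_one_le_left hβ.le h6
        linarith
      rw [h5, h6]
    intro a b ha hb
    rw [key a ha, key b hb]

lemma not_both {α β : ℚ} (hα : 0 < α) (hβ : 0 < β) {m k l : ℕ} (hkl : k ≤ l)
    (h : h20 α β m k = 0 ∨ h20 α β m l = 0) : (k : ℚ) / m ≤ α + β := by
  rw [h20_zero_iff hα hβ, h20_zero_iff hα hβ] at h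
  rcases h with h | h
  · exact h
  · refine le_trans ?_ h
    have : (k : ℚ) ≤ l := by exact_mod_cast hkl
    gcongr

theorem surfaces (α β : ℚ) (hα : 0 < α) (hβ : 0 < β) (m : ℕ) (hm : 0 < m) : IsChiral α β m ↔
    (Odd m ∧ 1 / 2 ≤ α + β + 1 / (2 * m)) ∨
      (Even m ∧ 1 / 2 ≤ α + β + 1 / m ∧ 1 / 2 ≤ 2 * α + β ∧ 1 / 2 ≤ α + 2 * β) := by
  have hmq : (0 : ℚ) < m := by exact_mod_cast hm
  constructor
  · intro hch
    rcases Nat.even_or_odd' m with ⟨t, rfl | rfl⟩
    · -- even
      right
      have htq : (0 : ℚ) < t := by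
        push_cast at hmq
        linarith
      have ht0 : 0 < t := by exact_mod_cast htq
      refine ⟨even_two_mul t, ?_, ?_⟩
      · have h1 := not_both hα hβ (m := 2 * t) (k := t - 1) (l := t + 1) (by omega) ?_
        · rw [Nat.cast_sub ht0] at h1
          push_cast at h1 ⊢
          have h2 : ((t : ℚ) - 1) / (2 * t) = 1 / 2 - 1 / (2 * t) := by
            field_simp
          linarith
        · rcases Nat.eq_or_lt_of_le (Nat.one_le_iff_ne_zero.mpr ht0.ne') with h2 | h2
          · left
            rw [h20_zero_iff hα hβ, ← h2]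
            simp only [Nat.sub_self, Nat.cast_zero, zero_div]
            positivity
          · exact (hch (t - 1) (t + 1) (by omega) (by omega) (by omega)).2 (by omega)
      · have h1 := (hch t t ht0 ht0 (by omega)).1 rfl
        rw [h20_le_one_iff hα hβ] at h1
        have h2 : (t : ℚ) / ((2 * t : ℕ) : ℚ) = 1 / 2 := by
          push_cast
          field_simp
        rw [h2] at h1
        exact h1
    · -- odd
      left
      refine ⟨odd_two_mul_add_one t, ?_⟩
      have h1 := not_both hα hβ (m := 2 * t + 1) (k := t) (l := t + 1) (by omega) ?_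
      · have h2 : (t : ℚ) / ((2 * t + 1 : ℕ) : ℚ) = 1 / 2 - 1 / (2 * ((2 * t + 1 : ℕ) : ℚ)) := by
          push_cast
          field_simp
          ring
        linarith
      · rcases Nat.eq_zero_or_pos t with h2 | h2
        · left
          rw [h20_zero_iff hα hβ, h2]
          simp only [Nat.cast_zero, zero_div]
          positivity
        · exact (hch t (t + 1) (by omega) (by omega) (by omega)).2 (by omega)
  · intro h k l hk hl hkl
    -- the smaller of two different characters does not occur
    have key : ∀ k l : ℕ, k < l → k + l = m → h20 α β m k = 0 := by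
      intro k l hlt hkl
      rw [h20_zero_iff hα hβ, div_le_iff₀ hmq]
      have hs : (k : ℚ) + l = m := by exact_mod_cast hkl
      rcases h with ⟨ho, h⟩ | ⟨he, h, -⟩
      · have h1 : (k : ℚ) + 1 ≤ l := by exact_mod_cast hlt
        have h2 : (1 / 2 - 1 / (2 * (m : ℚ))) * m ≤ (α + β) * m := by
          refine mul_le_mul_of_nonneg_right ?_ hmq.le
          linarith
        have h3 : (1 / 2 - 1 / (2 * (m : ℚ))) * m = m / 2 - 1 / 2 := by
          field_simp
        linarith
      · have h0 : k + 2 ≤ l := by
          obtain ⟨t, ht⟩ := he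
          omega
        have h1 : (k : ℚ) + 2 ≤ l := by exact_mod_cast h0
        have h2 : (1 / 2 - 1 / (m : ℚ)) * m ≤ (α + β) * m := by
          refine mul_le_mul_of_nonneg_right ?_ hmq.le
          linarith
        have h3 : (1 / 2 - 1 / (m : ℚ)) * m = m / 2 - 1 := by
          field_simp
        linarith
    constructor
    · intro he
      rw [h20_le_one_iff hα hβ]
      have h1 : (k : ℚ) / m = 1 / 2 := by
        have hs : (k : ℚ) + k = m := by
          rw [← he] at hkl
          exact_mod_cast hkl
        rw [div_eq_iff hmq.ne']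
        linarith
      rw [h1]
      rcases h with ⟨ho, -⟩ | ⟨-, -, h⟩
      · exfalso
        obtain ⟨t, ht⟩ := ho
        omega
      · exact h
    · intro hne
      rcases Nat.lt_or_gt_of_ne hne with h1 | h1
      · exact Or.inl (key k l h1 hkl)
      · exact Or.inr (key l k h1 (by omega))

/-! ## Abelian covers -/

section

variable {ι : Type} [Fintype ι]

lemma ab_ne {d : ι → ℕ} {α : ι → ℚ} (h : 3 ≤ level d α) (hD : 0 < ∑ i, d i) :
    h20Ab d α ≠ 0 := by
  unfold h20Ab
  rw [Finset.card_ne_zero]
  refine ⟨(0, 0), ?_⟩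
  simp only [Finset.mem_filter, Finset.mem_product, Finset.mem_range]
  refine ⟨⟨hD, hD⟩, ?_⟩
  simpa using h

lemma ab_zero {d : ι → ℕ} {α : ι → ℚ} (h : level d α < 3) : h20Ab d α = 0 := by
  unfold h20Ab
  rw [Finset.card_eq_zero, Finset.filter_eq_empty_iff]
  intro a _ ha
  have h1 : (0 : ℚ) ≤ a.1 := Nat.cast_nonneg _
  have h2 : (0 : ℚ) ≤ a.2 := Nat.cast_nonneg _
  linarith

lemma ab_one {d : ι → ℕ} {α : ι → ℚ} (h : level d α ≤ 3) : h20Ab d α ≤ 1 := by
  unfold h20Ab
  rw [Finset.card_le_one]
  have key : ∀ a : ℕ × ℕ, (a.1 : ℚ) + a.2 + 3 ≤ level d α → a = (0, 0) := by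
    rintro ⟨i, j⟩ ha
    have h1 : (i : ℚ) + j ≤ 0 := by
      simp only at ha
      linarith
    have h2 : i + j ≤ 0 := by exact_mod_cast h1
    have h3 : i = 0 ∧ j = 0 := by omega
    rw [h3.1, h3.2]
  intro a ha b hb
  rw [key a (Finset.mem_filter.mp ha).2, key b (Finset.mem_filter.mp hb).2]

lemma level_add_bar (d : ι → ℕ) (α : ι → ℚ) :
    level d α + level d (bar α) ≤ ((∑ i, d i : ℕ) : ℚ) := by
  unfold level
  rw [← Finset.sum_add_distrib, Nat.cast_sum]
  refine Finset.sum_le_sum fun i _ => ?_
  have hd : (0 : ℚ) ≤ d i := Nat.cast_nonneg _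
  unfold bar
  split_ifs with h
  · rw [h]
    simp
  · have : (d i : ℚ) * α i + d i * (1 - α i) = d i := by ring
    rw [this]

theorem covers (d : ι → ℕ) (hd : ∀ i, 0 < d i) : IsChiralAb d ↔
    ∑ i, d i ≤ 5 ∨ (Fintype.card ι = 1 ∧ ∑ i, d i = 6) := by
  constructor
  · intro hch
    by_contra hcon
    rw [not_or, not_le] at hcon
    obtain ⟨h5, h6⟩ := hcon
    obtain ⟨D, hD⟩ : ∃ D, D = ∑ i, d i := ⟨_, rfl⟩
    rw [← hD] at h5 h6
    have hDq : (D : ℚ) = ∑ i, (d i : ℚ) := by rw [hD]; push_cast; rfl
    have hD0 : (0 : ℚ) < D := by exact_mod_cast (by omega : 0 < D)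
    -- it suffices to find a character
    have hfin : ∀ α : ι → ℚ, (∀ i, 0 < α i ∧ α i < 1) → level d α = 3 → bar α ≠ α → False := by
      intro α h1 h2 h3
      have hb : level d (bar α) = D - 3 := by
        have h4 : bar α = fun i => 1 - α i := by
          funext i
          unfold bar
          rw [if_neg (h1 i).1.ne']
        rw [h4]
        unfold level
        rw [hDq, ← h2]
        unfold level
        rw [← Finset.sum_sub_distrib]
        refine Finset.sum_congr rfl fun i _ => ?_
        ring
      have h4 := (hch α ⟨fun i => ⟨(h1 i).1.le, (h1 i).2⟩, 3, by rw [h2]; norm_num⟩).2 h3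
      rcases h4 with h4 | h4
      · exact ab_ne (by rw [h2]) (by omega) h4
      · refine ab_ne ?_ (by omega) h4
        rw [hb]
        have : (6 : ℚ) ≤ D := by exact_mod_cast h5
        linarith
    rcases Nat.lt_or_ge 6 D with h7 | h7
    · -- `D ≥ 7`: all exponents are `3 / D`
      have h7q : (6 : ℚ) < D := by exact_mod_cast h7
      obtain ⟨i₀⟩ : Nonempty ι := by
        by_contra hne
        rw [not_nonempty_iff] at hne
        have : ∑ i, d i = 0 := by simp
        omega
      refine hfin (fun _ => 3 / D) (fun i => ⟨by positivity, ?_⟩) ?_ ?_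
      · rw [div_lt_one hD0]
        linarith
      · unfold level
        rw [← Finset.sum_mul, ← hDq]
        field_simp
      · intro h
        have h8 := congrFun h i₀
        unfold bar at h8
        rw [if_neg (by positivity)] at h8
        field_simp at h8
        linarith
    · -- `D = 6`: two exponents are moved away from `1 / 2`
      have hD6 : D = 6 := by omega
      have hcard : 1 < Fintype.card ι := by
        have h0 : Fintype.card ι ≠ 0 := by
          intro h0
          rw [Fintype.card_eq_zero_iff] at h0
          have : ∑ i, d i = 0 := by simp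
          omega
        have h1 : Fintype.card ι ≠ 1 := fun h => h6 ⟨h, hD6⟩
        omega
      obtain ⟨a, b, hab⟩ := Fintype.one_lt_card_iff.mp hcard
      classical
      have hle : ∀ i, (d i : ℚ) ≤ 6 := by
        intro i
        have h1 : d i ≤ ∑ i, d i := Finset.single_le_sum (fun _ _ => Nat.zero_le _)
          (Finset.mem_univ i)
        have h2 : d i ≤ 6 := by omega
        exact_mod_cast h2
      have hpos : ∀ i, (0 : ℚ) < d i := fun i => by exact_mod_cast hd i
      refine hfin (fun i => 1 / 2 + (if i = a then (d b : ℚ) / 20 else 0) -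
        (if i = b then (d a : ℚ) / 20 else 0)) (fun i => ?_) ?_ ?_
      · have h1 := hle a
        have h2 := hle b
        have h3 := hpos a
        have h4 := hpos b
        split_ifs <;> constructor <;> linarith
      · unfold level
        have h1 : ∀ i, (d i : ℚ) * (1 / 2 + (if i = a then (d b : ℚ) / 20 else 0) -
            (if i = b then (d a : ℚ) / 20 else 0)) = (d i : ℚ) * (1 / 2) +
            (if i = a then (d a : ℚ) * ((d b : ℚ) / 20) else 0) -
            (if i = b then (d b : ℚ) * ((d a : ℚ) / 20) else 0) := by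
          intro i
          split_ifs with h2 h3 h3
          · exact absurd (h2.symm.trans h3) hab
          · rw [h2]; ring
          · rw [h3]; ring
          · ring
        rw [Finset.sum_congr rfl fun i _ => h1 i, Finset.sum_sub_distrib, Finset.sum_add_distrib,
          Finset.sum_ite_eq' Finset.univ a, Finset.sum_ite_eq' Finset.univ b,
          if_pos (Finset.mem_univ a), if_pos (Finset.mem_univ b), ← Finset.sum_mul, ← hDq, hD6]
        push_cast
        ring
      · intro h
        have h8 := congrFun h a
        have h4 := hpos b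
        unfold bar at h8
        simp only [if_true, if_neg hab, sub_zero] at h8
        rw [if_neg (by positivity)] at h8
        linarith
  · intro h α hα
    obtain ⟨h1, n, hn⟩ := hα
    have hb : ∀ i, 0 ≤ bar α i := by
      intro i
      unfold bar
      split_ifs
      · exact le_rfl
      · linarith [(h1 i).2]
    have hsum := level_add_bar d α
    rcases h with h | ⟨hc, h⟩
    · have h5 : ((∑ i, d i : ℕ) : ℚ) ≤ 5 := by exact_mod_cast h
      constructor
      · intro he
        rw [he] at hsum
        exact ab_one (by linarith)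
      · intro _
        by_contra hcon
        rw [not_or] at hcon
        have h3 : 3 ≤ level d α := by
          by_contra hlt
          exact hcon.1 (ab_zero (by linarith))
        have h4 : 3 ≤ level d (bar α) := by
          by_contra hlt
          exact hcon.2 (ab_zero (by linarith))
        linarith
    · have h6 : ((∑ i, d i : ℕ) : ℚ) = 6 := by rw [h]; norm_num
      constructor
      · intro he
        rw [he] at hsum
        exact ab_one (by linarith)
      · intro hne
        by_contra hcon
        rw [not_or] at hcon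
        have h3 : 3 ≤ level d α := by
          by_contra hlt
          exact hcon.1 (ab_zero (by linarith))
        have h4 : 3 ≤ level d (bar α) := by
          by_contra hlt
          exact hcon.2 (ab_zero (by linarith))
        apply hne
        obtain ⟨i₀, hi₀⟩ := Fintype.card_eq_one_iff.mp hc
        have h7 : level d α = d i₀ * α i₀ := by
          unfold level
          rw [Fintype.sum_eq_single i₀]
          intro x hx
          exact absurd (hi₀ x) hx
        have h8 : d i₀ = 6 := by
          rw [← h, Fintype.sum_eq_single i₀]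
          intro x hx
          exact absurd (hi₀ x) hx
        have h9 : α i₀ = 1 / 2 := by
          rw [h8] at h7
          push_cast at h7
          linarith
        funext i
        rw [hi₀ i]
        unfold bar
        rw [h9]
        norm_num

end

/-- (1) `H^{2,0}` of the smooth model of `z ^ m = f(x, y)` is chiral if and only if `m` is odd and
`α + β + 1 / (2 m) ≥ 1 / 2`, or `m` is even and `α + β + 1 / m`, `2 α + β` and `α + 2 β` are at
least `1 / 2`.
(2) `H^{2,0}` is chiral for all abelian covers of the plane which are branched in curves of degrees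
`d i`, if and only if the sum of the `d i` is at most `5`, or there is only one curve, a sextic. -/
theorem result :
    (∀ α β : ℚ, 0 < α → 0 < β → ∀ m : ℕ, 0 < m → (IsChiral α β m ↔
      (Odd m ∧ 1 / 2 ≤ α + β + 1 / (2 * m)) ∨
        (Even m ∧ 1 / 2 ≤ α + β + 1 / m ∧ 1 / 2 ≤ 2 * α + β ∧ 1 / 2 ≤ α + 2 * β))) ∧
    ∀ (ι : Type) [Fintype ι] (d : ι → ℕ), (∀ i, 0 < d i) → (IsChiralAb d ↔
      ∑ i, d i ≤ 5 ∨ (Fintype.card ι = 1 ∧ ∑ i, d i = 6)) :=
  ⟨fun α β hα hβ m hm => surfaces α β hα hβ m hm, fun _ _ d hd => covers d hd⟩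

end Pool.Agent.Lib.MP_938ce2_parked.PlaneCovers
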