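import Pool.Agent.Lib.RAT.Fin
import Pool.Agent.Lib.HCM.Tate

/-!
The Tate conjecture for abelian varieties of CM type.

`A = ∏ i, ℂ^(Φ i) / Φ i (𝓞 (K i))` for finitely many CM fields `K i` with CM types `Φ i`; every
abelian variety of CM type is isogenous to such an `A`.  `HQ K n` is `H_{2n}(A, ℚ)` and
`Hp p K n = ℚ_[p] ⊗[ℚ] HQ K n` is `H_{2n}(A, ℚ_p)`.  `E` is a number field, Galois over `ℚ`, which
contains the `K i`.  `IsTate`: for some `m` the reflex norms of all integers `x ≡ 1 mod p^m` of `E`
act on `c` by the `n`-th power of the norm of `x`; by the main theorem of complex multiplication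
this says that `c` is fixed, up to the `n`-th power of the cyclotomic character, by an open subgroup
of the Galois group.  `BallP p Φ`: the classes of the holomorphic maps from compact arithmetic
quotients of the `n`-ball to `A`.  See `Pool.Agent.Lib.HCM.TateDefs`, `Pool.Agent.Lib.HCM.Stat` and
`Pool.Agent.Lib.CMN.Defs` for the definitions.
-/

set_option autoImplicit false

namespace Pool.Agent.Lib.MP_938ce2_parked.TateCM

open Pool.Agent.HCM

/-- The Tate classes in `H_{2n}(A, ℚ_p)` are the linear combinations, with coefficients in `ℚ_p`, of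
the classes of holomorphic maps from compact arithmetic ball quotients. -/
theorem result (p : ℕ) [Fact p.Prime] (n : ℕ) (ι : Type) [Finite ι] (K : ι → Type)
    [∀ i, Field (K i)] [∀ i, NumberField (K i)] [∀ i, NumberField.IsCMField (K i)]
    (Φ : ∀ i, Set (K i →+* ℂ)) (hn : 0 < n) (hΦ : ∀ i, IsCMType (Φ i))
    (E : Type) [Field E] [NumberField E] [IsGalois ℚ E] (j : ∀ i, K i →+* E) (τ₀ : E →+* ℂ)
    (c : Hp p K n) :
    IsTate p Φ j τ₀ c ↔ c ∈ Submodule.span ℚ_[p] (BallP p Φ) :=
  tate_of Pool.Agent.RAT.hodgeQ p n ι K Φ hn hΦ E j τ₀ c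

end Pool.Agent.Lib.MP_938ce2_parked.TateCM
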